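import Pool.Agent.Lib.MP_9f84a9_co.R.Stm2

/-! Piece bag. -/

set_option autoImplicit false

namespace Pool.Agent.Lib.MP_9f84a9_co

open Finset

namespace R

open Classical in
private lemma bag_aux (hcomb : S_comb) {V : Type} (f : V → E) (r : V) (π : V → V) (ρ : V → ℕ) :
    ∀ (n : ℕ) (W : Finset V) (β : V → List PN), W.card = n → r ∈ W →
    (∀ v ∈ W, v ≠ r → π v ∈ W ∧ ρ (π v) < ρ v) →
    ∃ L : List PN, ((L.flatMap PN.leaves : List E) : Multiset E) =
        ∑ v ∈ W, (((β v).flatMap PN.leaves : List E) : Multiset E) ∧
      (∀ B ∈ L, ∀ z ∈ B.nodes, (∃ v, z = f v) ∨ ∃ v ∈ W, ∃ C ∈ β v, z ∈ C.nodes) ∧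
      hangs (f r) L ≤ ∑ v ∈ W, hangs (f v) (β v) + ∑ v ∈ W.erase r, dist (f v) (f (π v)) := by
  intro n
  induction n with
  | zero =>
    intro W β hW hr
    rw [card_eq_zero] at hW
    rw [hW] at hr
    exact absurd hr (notMem_empty r)
  | succ n ih =>
    intro W β hW hr hπ
    rcases (W.erase r).eq_empty_or_nonempty with he | hne
    · have hW1 : W = {r} := by
        ext v
        rw [mem_singleton]
        constructor
        · intro hv
          by_contra hvr
          have : v ∈ W.erase r := mem_erase.2 ⟨hvr, hv⟩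
          rw [he] at this
          exact absurd this (notMem_empty v)
        · rintro rfl; exact hr
      refine ⟨β r, ?_, ?_, ?_⟩
      · rw [hW1, sum_singleton]
      · intro B hB z hz
        exact Or.inr ⟨r, hr, B, hB, hz⟩
      · rw [he, sum_empty, hW1, sum_singleton, add_zero]
    · obtain ⟨s, hs, hmax⟩ := exists_max_image (W.erase r) ρ hne
      rw [mem_erase] at hs
      obtain ⟨hsr, hsW⟩ := hs
      obtain ⟨W', hW'⟩ : ∃ W', W' = W.erase s := ⟨_, rfl⟩
      have hrW' : r ∈ W' := by rw [hW']; exact mem_erase.2 ⟨Ne.symm hsr, hr⟩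
      have hcard : W'.card = n := by rw [hW', card_erase_of_mem hsW, hW]; rfl
      have hπ' : ∀ v ∈ W', v ≠ r → π v ∈ W' ∧ ρ (π v) < ρ v := by
        intro v hv hvr
        rw [hW', mem_erase] at hv
        obtain ⟨h1, h2⟩ := hπ v hv.2 hvr
        refine ⟨?_, h2⟩
        rw [hW', mem_erase]
        refine ⟨fun h => ?_, h1⟩
        have h3 := hmax v (mem_erase.2 ⟨hvr, hv.2⟩)
        rw [h] at h2
        omega
      obtain ⟨t, ht⟩ : ∃ t, t = π s := ⟨_, rfl⟩
      obtain ⟨htW, hts⟩ := hπ s hsW hsr
      rw [← ht] at htW hts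
      have htW' : t ∈ W' := by
        rw [hW', mem_erase]
        exact ⟨fun h => by rw [h] at hts; omega, htW⟩
      have hWsub : ∀ v ∈ W', v ∈ W := fun v hv => by rw [hW'] at hv; exact (mem_erase.1 hv).2
      -- sums
      have hdist : ∑ v ∈ W.erase r, dist (f v) (f (π v)) =
          dist (f s) (f t) + ∑ v ∈ W'.erase r, dist (f v) (f (π v)) := by
        rw [hW', erase_right_comm, ht]
        exact (add_sum_erase (W.erase r) (fun v => dist (f v) (f (π v)))
          (mem_erase.2 ⟨hsr, hsW⟩)).symm
      have hsum1 : ∑ v ∈ W, (((β v).flatMap PN.leaves : List E) : Multiset E) =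
          (((β s).flatMap PN.leaves : List E) : Multiset E) +
          ∑ v ∈ W', (((β v).flatMap PN.leaves : List E) : Multiset E) := by
        rw [hW']
        exact (add_sum_erase W (fun v => (((β v).flatMap PN.leaves : List E) : Multiset E))
          hsW).symm
      have hsum2 : ∑ v ∈ W, hangs (f v) (β v) =
          hangs (f s) (β s) + ∑ v ∈ W', hangs (f v) (β v) := by
        rw [hW']
        exact (add_sum_erase W (fun v => hangs (f v) (β v)) hsW).symm
      by_cases hβ : β s = []
      · obtain ⟨L, h1, h2, h3⟩ := ih W' β hcard hrW' hπ'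
        refine ⟨L, ?_, ?_, ?_⟩
        · rw [h1, hsum1, hβ]
          simp
        · intro B hB z hz
          rcases h2 B hB z hz with h | ⟨v, hv, C, hC, hzC⟩
          · exact Or.inl h
          · exact Or.inr ⟨v, hWsub v hv, C, hC, hzC⟩
        · rw [hdist, hsum2, hβ]
          have h4 : hangs (f s) [] = 0 := by simp [hangs]
          have h5 : 0 ≤ dist (f s) (f t) := dist_nonneg
          rw [h4]
          linarith
      · obtain ⟨B, hB1, hB2, hB3⟩ := hcomb (f s) (β s) hβ
        obtain ⟨β', hβ'⟩ : ∃ β' : V → List PN, β' = Function.update β t (B :: β t) := ⟨_, rfl⟩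
        have hβt : β' t = B :: β t := by rw [hβ']; exact Function.update_self _ _ _
        have hβv : ∀ v, v ≠ t → β' v = β v := by
          intro v hv
          rw [hβ']
          exact Function.update_of_ne hv _ _
        obtain ⟨L, h1, h2, h3⟩ := ih W' β' hcard hrW' hπ'
        have hs1 : ∑ v ∈ W', (((β' v).flatMap PN.leaves : List E) : Multiset E) =
            ((B.leaves : List E) : Multiset E) +
            ∑ v ∈ W', (((β v).flatMap PN.leaves : List E) : Multiset E) := by
          rw [← add_sum_erase W' (fun v => (((β' v).flatMap PN.leaves : List E) : Multiset E)) htW',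
            ← add_sum_erase W' (fun v => (((β v).flatMap PN.leaves : List E) : Multiset E)) htW']
          have e1 : ∑ v ∈ W'.erase t, (((β' v).flatMap PN.leaves : List E) : Multiset E) =
              ∑ v ∈ W'.erase t, (((β v).flatMap PN.leaves : List E) : Multiset E) := by
            apply sum_congr rfl
            intro v hv
            rw [hβv v (mem_erase.1 hv).1]
          rw [e1, hβt, List.flatMap_cons, ← Multiset.coe_add, add_assoc]
        have hs2 : ∑ v ∈ W', hangs (f v) (β' v) =
            hang (f t) B + ∑ v ∈ W', hangs (f v) (β v) := by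
          rw [← add_sum_erase W' (fun v => hangs (f v) (β' v)) htW',
            ← add_sum_erase W' (fun v => hangs (f v) (β v)) htW']
          have e1 : ∑ v ∈ W'.erase t, hangs (f v) (β' v) = ∑ v ∈ W'.erase t, hangs (f v) (β v) := by
            apply sum_congr rfl
            intro v hv
            rw [hβv v (mem_erase.1 hv).1]
          have e2 : hangs (f t) (B :: β t) = hang (f t) B + hangs (f t) (β t) := by
            simp [hangs]
          rw [e1, hβt, e2, add_assoc]
        refine ⟨L, ?_, ?_, ?_⟩
        · rw [h1, hs1, hsum1, hB1]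
        · intro B' hB' z hz
          rcases h2 B' hB' z hz with h | ⟨v, hv, C, hC, hzC⟩
          · exact Or.inl h
          · by_cases hvt : v = t
            · rw [hvt, hβt, List.mem_cons] at hC
              rcases hC with rfl | hC
              · rcases hB2 z hzC with h | ⟨C', hC', hz'⟩
                · exact Or.inl ⟨s, h⟩
                · exact Or.inr ⟨s, hsW, C', hC', hz'⟩
              · exact Or.inr ⟨t, htW, C, hC, hzC⟩
            · rw [hβv v hvt] at hC
              exact Or.inr ⟨v, hWsub v hv, C, hC, hzC⟩
        · rw [hs2] at h3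
          rw [hdist, hsum2]
          have h4 := hB3 (f t)
          rw [dist_comm (f t) (f s)] at h4
          linarith

theorem t_bag (hcomb : S_comb) : S_bag := by
  intro V _ f r π ρ W β hr hπ
  exact bag_aux hcomb f r π ρ W.card W β rfl hr hπ

end R

end Pool.Agent.Lib.MP_9f84a9_co
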