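import Pool.Agent.Lib.MP_9f84a9_co.R.Stm1

/-!
# MP_9f84a9_co, section 1, piece bary: barycentric coordinates
-/

set_option autoImplicit false

namespace Pool.Agent.Lib.MP_9f84a9_co

open Finset Filter Topology

namespace R

private theorem bary_sum3 {N : ℕ} {M : Type*} [AddCommMonoid M] {a b w : Fin N} (hab : a ≠ b)
    (haw : a ≠ w) (hbw : b ≠ w) (f : Fin N → M)
    (hf : ∀ v, v ∉ ({a, b, w} : Finset (Fin N)) → f v = 0) : ∑ v, f v = f a + f b + f w := by
  rw [← Finset.sum_subset (Finset.subset_univ ({a, b, w} : Finset (Fin N)))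
    (fun v _ hv => hf v hv)]
  rw [Finset.sum_insert (by simp [hab, haw]), Finset.sum_insert (by simp [hbw]),
    Finset.sum_singleton, add_assoc]

private theorem bary_ne {N : ℕ} {p : Fin N → E} {u v w : Fin N}
    (h : 0 < ar (p u) (p v) (p w)) : u ≠ v ∧ u ≠ w ∧ v ≠ w := by
  refine ⟨?_, ?_, ?_⟩
  · rintro rfl
    unfold ar at h
    simp at h
  · rintro rfl
    unfold ar at h
    simp at h
  · rintro rfl
    unfold ar at h
    nlinarith [h]

theorem t_bary : S_bary := by
  intro N p u v w z h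
  obtain ⟨huv, huw, hvw⟩ := bary_ne h
  set s := ar (p u) (p v) (p w) with hs
  have hs0 : s ≠ 0 := h.ne'
  set ζ : Pt N := Pi.single u (ar (p v) (p w) z / s) + Pi.single v (ar (p w) (p u) z / s)
    + Pi.single w (ar (p u) (p v) z / s) with hζ
  have e1 : ζ u = ar (p v) (p w) z / s := by
    rw [hζ]
    simp only [Pi.add_apply, Pi.single_eq_same, Pi.single_eq_of_ne huv, Pi.single_eq_of_ne huw]
    ring
  have e2 : ζ v = ar (p w) (p u) z / s := by
    rw [hζ]
    simp only [Pi.add_apply, Pi.single_eq_same, Pi.single_eq_of_ne huv.symm,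
      Pi.single_eq_of_ne hvw]
    ring
  have e3 : ζ w = ar (p u) (p v) z / s := by
    rw [hζ]
    simp only [Pi.add_apply, Pi.single_eq_same, Pi.single_eq_of_ne huw.symm,
      Pi.single_eq_of_ne hvw.symm]
    ring
  have e4 : Sup ζ {u, v, w} := by
    intro i hi
    simp only [Finset.mem_insert, Finset.mem_singleton, not_or] at hi
    rw [hζ]
    simp only [Pi.add_apply, Pi.single_eq_of_ne hi.1, Pi.single_eq_of_ne hi.2.1,
      Pi.single_eq_of_ne hi.2.2]
    ring
  refine ⟨ζ, e4, ?_, ?_, ?_, ?_, ?_⟩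
  · rw [bary_sum3 huv huw hvw ζ (fun i hi => e4 i hi), e1, e2, e3, ← add_div, ← add_div,
      div_eq_one_iff_eq hs0, hs]
    unfold ar
    ring
  · unfold pos
    rw [bary_sum3 huv huw hvw (fun i => ζ i • p i)
      (fun i hi => by simp only [e4 i hi, zero_smul]), e1, e2, e3]
    have hc : ∀ i : Fin 2, ar (p v) (p w) z * p u i + ar (p w) (p u) z * p v i
        + ar (p u) (p v) z * p w i = s * z i := by
      intro i
      rw [hs]
      unfold ar
      fin_cases i
      · simp only [Fin.zero_eta, Fin.isValue]; ring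
      · simp only [Fin.mk_one, Fin.isValue]; ring
    ext i
    simp only [PiLp.add_apply, PiLp.smul_apply, smul_eq_mul]
    rw [div_mul_eq_mul_div, div_mul_eq_mul_div, div_mul_eq_mul_div, ← add_div, ← add_div, hc,
      mul_div_cancel_left₀ _ hs0]
  · rw [e3, div_mul_cancel₀ _ hs0]
  · rw [e1, div_mul_cancel₀ _ hs0]
  · rw [e2, div_mul_cancel₀ _ hs0]

end R

end Pool.Agent.Lib.MP_9f84a9_co
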