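import Pool.Agent.Lib.MP_9f84a9_co.R.Stm2

/-!
# MP_9f84a9_co, section 1, piece comb: several networks hanging at a point are combined to one.
-/

set_option autoImplicit false

namespace Pool.Agent.Lib.MP_9f84a9_co

open Finset

namespace R

/-- [R comb] -/
theorem t_comb : S_comb := by
  intro q L
  induction L with
  | nil => intro h; exact absurd rfl h
  | cons B₁ L' ih =>
    intro _
    by_cases hL' : L' = []
    · subst hL'
      refine ⟨B₁, by simp, ?_, ?_⟩
      · intro z hz
        exact Or.inr ⟨B₁, by simp, hz⟩
      · intro q'
        have : dist q' B₁.top ≤ dist q' q + dist q B₁.top := dist_triangle _ _ _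
        simp only [hangs, hang, List.map_cons, List.map_nil, List.sum_cons, List.sum_nil]
        linarith
    · obtain ⟨C, hC1, hC2, hC3⟩ := ih hL'
      refine ⟨PN.node q B₁ C, ?_, ?_, ?_⟩
      · simp only [PN.leaves, hC1, List.flatMap_cons]
      · intro z hz
        simp only [PN.nodes, List.mem_cons, List.mem_append] at hz
        rcases hz with hz | hz | hz
        · exact Or.inl hz
        · exact Or.inr ⟨B₁, by simp, hz⟩
        · rcases hC2 z hz with h | ⟨D, hD, hzD⟩
          · exact Or.inl h
          · exact Or.inr ⟨D, List.mem_cons_of_mem _ hD, hzD⟩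
      · intro q'
        rw [hang_node]
        have h := hC3 q
        rw [dist_self] at h
        have e : hangs q (B₁ :: L') = hang q B₁ + hangs q L' := by
          simp [hangs]
        rw [e]
        linarith

end R

end Pool.Agent.Lib.MP_9f84a9_co
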