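import Pool.Agent.Lib.MP_9f84a9_co.R.Stm1

/-!
# MP_9f84a9_co, section 1, part 1: the development of a planar network
-/

set_option autoImplicit false

namespace Pool.Agent.Lib.MP_9f84a9_co

open Finset Filter Topology

namespace R

namespace dev

private theorem path_nonneg {N : ℕ} {K : Cx N} {c : Pt N → Pt N → ℝ} (hc : IsCost c) {x y : Pt N}
    {k : ℕ} {r : ℝ} (h : Path K c x y k r) : 0 ≤ r := by
  induction h with
  | nil x hx => exact le_refl _
  | cons x y z k r hs hp ih => exact add_nonneg (hc.nonneg _ _) ih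

private theorem dK_le {N : ℕ} {K : Cx N} {c : Pt N → Pt N → ℝ} (hc : IsCost c) {x y : Pt N}
    {k : ℕ} {r : ℝ} (h : Path K c x y k r) : dK K c x y ≤ r := by
  refine csInf_le ⟨0, ?_⟩ ⟨k, h⟩
  rintro s ⟨k', h'⟩
  exact path_nonneg hc h'

private theorem top_in {N : ℕ} {K : Cx N} (A : Net N) (h1 : ∀ z ∈ A.nodes, In K z)
    (h2 : ∀ v ∈ A.leaves, In K (vx v)) : In K A.top := by
  cases A with
  | leaf v => exact h2 v (by simp [Net.leaves])
  | node z l r => exact h1 z (by simp [Net.nodes])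

private theorem len_le {N : ℕ} {K : Cx N} {d d' : Pt N → Pt N → ℝ}
    (h : ∀ x y, In K x → In K y → d' x y ≤ d x y) (A : Net N) :
    (∀ z ∈ A.nodes, In K z) → (∀ v ∈ A.leaves, In K (vx v)) → A.len d' ≤ A.len d := by
  induction A with
  | leaf v => intro _ _; exact le_refl _
  | node z l r ihl ihr =>
    intro h1 h2
    have hz : In K z := h1 z (by simp [Net.nodes])
    have hl1 : ∀ z ∈ l.nodes, In K z := fun z hz => h1 z (by simp [Net.nodes, hz])
    have hr1 : ∀ z ∈ r.nodes, In K z := fun z hz => h1 z (by simp [Net.nodes, hz])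
    have hl2 : ∀ v ∈ l.leaves, In K (vx v) := fun v hv => h2 v (by simp [Net.leaves, hv])
    have hr2 : ∀ v ∈ r.leaves, In K (vx v) := fun v hv => h2 v (by simp [Net.leaves, hv])
    have e1 := ihl hl1 hl2
    have e2 := ihr hr1 hr2
    have e3 := h z l.top hz (top_in l hl1 hl2)
    have e4 := h z r.top hz (top_in r hr1 hr2)
    simp only [Net.len]
    linarith

private theorem leaves_pos (B : PN) : 1 ≤ B.leaves.length := by
  induction B with
  | leaf x => simp [PN.leaves]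
  | node z l r ihl ihr => simp only [PN.leaves, List.length_append]; omega

private theorem ar_self (x y : E) : ar x x y = 0 := by simp [ar]

private theorem ar_self' (x y : E) : ar x y x = 0 := by simp [ar]

private theorem ar_self'' (x y : E) : ar x y y = 0 := by simp only [ar]; ring

private theorem ar_cyc (x y z : E) : ar x y z = ar z x y := by simp only [ar]; ring

private theorem sum3 {N : ℕ} {M : Type} [AddCommMonoid M] (f : Fin N → M) (a b c : Fin N)
    (hab : a ≠ b) (hac : a ≠ c) (hbc : b ≠ c) (h : ∀ i, i ∉ ({a, b, c} : Finset (Fin N)) → f i = 0) :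
    ∑ i, f i = f a + f b + f c := by
  rw [← Finset.sum_subset (Finset.subset_univ ({a, b, c} : Finset (Fin N)))
    (fun x _ hx => h x hx)]
  rw [Finset.sum_insert (by simp [hab, hac]), Finset.sum_insert (by simp [hbc]),
    Finset.sum_singleton, add_assoc]

/-- a point of a simplex with a coordinate 1 is a vertex -/
private theorem eq_vx {N : ℕ} (x : Pt N) (a : Fin N) (h0 : ∀ v, 0 ≤ x v) (h1 : ∑ v, x v = 1)
    (ha : x a = 1) : x = vx a := by
  have h2 : ∀ v, v ≠ a → x v = 0 := by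
    intro v hv
    have h3 : x a + x v ≤ ∑ v, x v := by
      have := Finset.sum_le_sum_of_subset_of_nonneg (Finset.subset_univ ({a, v} : Finset (Fin N)))
        (fun i _ _ => h0 i)
      rwa [Finset.sum_pair (Ne.symm hv)] at this
    have := h0 v
    linarith
  ext v
  by_cases hv : v = a
  · subst hv
    rw [ha]
    simp [vx]
  · rw [h2 v hv]
    simp [vx, hv]

/-- the first triangle as a disc -/
private def D0 {N : ℕ} (a b c : Fin N) : Dsc N := ⟨a, b, PT.node c PT.nil PT.nil, PT.nil⟩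

private theorem D0_K {N : ℕ} (a b c : Fin N) : (D0 a b c).K = {{a, b, c}} := by
  unfold Dsc.K D0
  simp [PT.fac]

private theorem D0_emb {N : ℕ} (p : Fin N → E) (Y : Finset E) (a b c : Fin N)
    (h : 0 < ar (p a) (p b) (p c))
    (he : ∀ α β γ : ℝ, 0 ≤ α → 0 ≤ β → 0 ≤ γ → α + β + γ = 1 →
      α • p a + β • p b + γ • p c ∈ Y → α = 1 ∨ β = 1 ∨ γ = 1) :
    Emb p Y (D0 a b c) := by
  have hab : a ≠ b := by
    rintro rfl
    rw [ar_self] at h
    exact lt_irrefl _ h
  have hac : a ≠ c := by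
    rintro rfl
    rw [ar_self'] at h
    exact lt_irrefl _ h
  have hbc : b ≠ c := by
    rintro rfl
    rw [ar_self''] at h
    exact lt_irrefl _ h
  refine ⟨?_, ?_, ?_, ?_⟩
  · simp [Dsc.ok, Dsc.vl, D0, PT.vs, hab, hac, hbc]
  · simp [Dsc.SPos, D0, PT.SPos, h]
  · simp [D0]
  · rintro x ⟨h0, h1, f, hf, hs⟩ hx
    rw [D0_K, Finset.mem_singleton] at hf
    subst hf
    have hp : pos p x = x a • p a + x b • p b + x c • p c := by
      unfold pos
      refine sum3 _ a b c hab hac hbc ?_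
      intro i hi
      rw [hs i hi, zero_smul]
    have hsum : x a + x b + x c = 1 := by
      rw [← h1]
      exact (sum3 _ a b c hab hac hbc hs).symm
    rw [hp] at hx
    rcases he _ _ _ (h0 a) (h0 b) (h0 c) hsum hx with h | h | h
    · exact ⟨a, by simp [D0, Dsc.vl], eq_vx x a h0 h1 h⟩
    · exact ⟨b, by simp [D0, Dsc.vl], eq_vx x b h0 h1 h⟩
    · exact ⟨c, by simp [D0, Dsc.vl, PT.vs], eq_vx x c h0 h1 h⟩

private theorem exists_name {N : ℕ} {p : Fin N → E} {Y : Finset E} {M : ℕ} (h : Nam p Y M)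
    (hM : 1 ≤ M) (y : E) (hy : y ∈ Y) : ∃ v, p v = y := by
  have h1 := h.many y hy
  have h2 : 0 < Nat.card {v : Fin N // p v = y} := by omega
  obtain ⟨⟨v, hv⟩⟩ := (Nat.card_pos_iff.1 h2).1
  exact ⟨v, hv⟩

end dev

theorem t_dev (hroot : S_root) (hnam : S_nam) (hins : S_ins) (hseg : S_seg) (hnet : S_net)
    (hext : S_ext) (hms : S_ms) (hA1 : S_A1) (hB4 : S_B4) : S_dev := by
  intro Y A B C x1 z l r hA hB hC hx1 hI hn hlv hgen hne
  obtain ⟨hzY, hMiss, hgl, hgr⟩ := hgen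
  obtain ⟨u, hu, v, hv, h1, h2, h3, hemp⟩ := hroot Y A B C x1 z hA hB hC hx1 hI hne
  have hla := dev.leaves_pos l
  have hlb := dev.leaves_pos r
  obtain ⟨N, p, hN⟩ := hnam Y
    (4 + (Y.card ^ 2 + 1) * (2 * (l.leaves.length + r.leaves.length) + 2))
  obtain ⟨n1, hn1⟩ := dev.exists_name hN (by omega) x1 hx1
  obtain ⟨n2, hn2⟩ := dev.exists_name hN (by omega) u hu
  obtain ⟨n3, hn3⟩ := dev.exists_name hN (by omega) v hv
  obtain ⟨a1, -, -, -, a5, a6, -⟩ := hA1 N
  have hcost : IsCost (ce p) := a1 p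
  have hD0 : Emb p Y (dev.D0 n1 n2 n3) := by
    apply dev.D0_emb
    · rw [hn1, hn2, hn3]; exact h3
    · rw [hn1, hn2, hn3]; exact hemp
  have hnull : ∀ w ∈ (PN.node z l r).nodes, w ∈ convexHull ℝ (Y : Set E) :=
    fun w hw => (hins A B C).1 Y w hA hB hC (hn w hw)
  have hzh : z ∈ convexHull ℝ (Y : Set E) := hnull z (by simp [PN.nodes])
  have hEnt : Ent p n1 n2 n3 (vx n1) z := by
    have hin := a5 {{n1, n2, n3}} {n1, n2, n3} n1 (by simp) (by simp)
    refine ⟨hin.1.1, hin.1.2.1, hin.2, ?_, ?_, ?_⟩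
    · intro _
      rw [hn1, hn2]
      exact h1.le
    · intro h
      simp [vx] at h
    · intro _
      rw [hn1, hn3]
      rw [dev.ar_cyc] at h2
      exact h2.le
  have hposn : pos p (vx n1) = x1 := by rw [a6, hn1]
  have hms1 : ms Y (pos p (vx n1)) z ≤ Y.card ^ 2 := hms.2 Y _ z
  have hlen0 : (dev.D0 n1 n2 n3).vl.length = 3 := by simp [dev.D0, Dsc.vl, PT.vs]
  obtain ⟨D1, y, hE1, hX1, hy1, hpy, k1, hpath⟩ := hseg N _ p Y (dev.D0 n1 n2 n3) n1 n2 n3 (vx n1) z
    hN hD0 (by rw [hlen0]; nlinarith) (by rw [dev.D0_K]; simp) (by rw [hn1, hn2, hn3]; exact h3)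
    hzh hEnt (by rw [hposn]; exact hMiss)
  have hl1 : D1.vl.length ≤ 3 + Y.card ^ 2 := by
    have := hX1.2
    rw [hlen0] at this
    omega
  have hyY : pos p y ∉ Y := by rw [hpy]; exact hzY
  obtain ⟨D2, l', hE2, hX2, hn2', hlv2, hmap2, hlen2⟩ := hnet N _ p Y l D1 y hN hE1
    (by nlinarith) hy1 hyY
    (fun w hw => hnull w (by simp [PN.nodes, hw]))
    (fun w hw => hlv w (by simp [PN.leaves, hw])) (by rw [hpy]; exact hgl)
  obtain ⟨hx2a, hx2b, hx2c, hx2d, hx2e⟩ := hext N D1 D2 _ hE1.ok hE2.ok hX2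
  have hl2 : D2.vl.length ≤ D1.vl.length + (Y.card ^ 2 + 1) * (2 * l.leaves.length - 1) := hX2.2
  have hl2' : D2.vl.length + (Y.card ^ 2 + 1) * (2 * r.leaves.length) <
      4 + (Y.card ^ 2 + 1) * (2 * (l.leaves.length + r.leaves.length) + 2) := by
    have e : 2 * l.leaves.length - 1 ≤ 2 * l.leaves.length := Nat.sub_le _ _
    have e' := Nat.mul_le_mul_left (Y.card ^ 2 + 1) e
    nlinarith
  obtain ⟨D3, r', hE3, hX3, hn3', hlv3, hmap3, hlen3⟩ := hnet N _ p Y r D2 y hN hE2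
    hl2' (hx2c y hy1) hyY
    (fun w hw => hnull w (by simp [PN.nodes, hw]))
    (fun w hw => hlv w (by simp [PN.leaves, hw])) (by rw [hpy]; exact hgr)
  obtain ⟨hx3a, hx3b, hx3c, hx3d, hx3e⟩ := hext N D2 D3 _ hE2.ok hE3.ok hX3
  obtain ⟨-, hx1b, hx1c, -, -⟩ := hext N (dev.D0 n1 n2 n3) D1 _ hD0.ok hE1.ok hX1
  have hvin : ∀ (D : Dsc N), D.ok → ∀ v ∈ D.vl, In D.K (vx v) := by
    intro D hD v hv
    obtain ⟨f, hf, hvf⟩ := (hB4 N D hD).2.1 v hv
    exact (a5 D.K f v hf hvf).1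
  have hn1D1 : n1 ∈ D1.vl := hx1b n1 (by simp [dev.D0, Dsc.vl])
  refine ⟨N, p, D3, n1, Net.node y l' r', hN.mem, hE3.ok, hE3.spos, hx3b _ (hx2b _ hn1D1), hn1,
    ?_, ?_, ?_, ?_⟩
  · intro w hw
    simp only [Net.nodes, List.mem_cons, List.mem_append] at hw
    rcases hw with rfl | hw | hw
    · exact hx3c _ (hx2c _ hy1)
    · exact hx3c _ (hn2' w hw)
    · exact hn3' w hw
  · intro w hw
    simp only [Net.leaves, List.mem_append] at hw
    rcases hw with hw | hw
    · exact hx3b _ (hlv2 w hw)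
    · exact hlv3 w hw
  · simp only [Net.leaves, PN.leaves, List.map_append, hmap2, hmap3]
  · have e1 : dK D3.K (ce p) (vx n1) y ≤ dist x1 z := by
      have := dev.dK_le hcost (hx3d _ _ _ _ _ (hx2d _ _ _ _ _ hpath))
      rwa [hposn] at this
    have hmono : ∀ x y, In D2.K x → In D2.K y → dK D3.K (ce p) x y ≤ dK D2.K (ce p) x y :=
      fun x y hx hy => hx3e (ce p) x y hcost hx hy
    have hl'v : ∀ v ∈ l'.leaves, In D2.K (vx v) := fun v hv => hvin D2 hE2.ok v (hlv2 v hv)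
    have e2 := dev.len_le hmono l' hn2' hl'v
    have e3 := hmono y l'.top (hx2c y hy1) (dev.top_in l' hn2' hl'v)
    rw [hpy] at hlen2 hlen3
    rw [hang_node]
    show dK D3.K (ce p) (vx n1) y + 0 + (dK D3.K (ce p) y l'.top + dK D3.K (ce p) y r'.top +
      l'.len (dK D3.K (ce p)) + r'.len (dK D3.K (ce p))) ≤ _
    linarith

end R

end Pool.Agent.Lib.MP_9f84a9_co
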