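import Pool.Agent.Lib.MP_9f84a9_co.R.Stm1

/-!
# MP_9f84a9_co, section 1, `exit`: where a segment leaves a triangle
-/

set_option autoImplicit false

namespace Pool.Agent.Lib.MP_9f84a9_co

open Finset Filter Topology

namespace R

private theorem exit_pos {N : ℕ} (x' : Pt N) (b : Fin N) (hs : ∑ i, x' i = 1)
    (h : ∀ i, i ≠ b → x' i = 0) : x' = vx b := by
  have hb : x' b = 1 := by
    rw [← hs]
    exact (Finset.sum_eq_single b (fun i _ hi => h i hi) (by simp)).symm
  funext i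
  unfold vx
  by_cases hi : i = b
  · subst hi
    rw [Pi.single_eq_same, hb]
  · rw [Pi.single_eq_of_ne hi, h i hi]

private theorem exit_core {N : ℕ} (p : Fin N → E) (Y : Finset E) (a b c : Fin N) (x ζ : Pt N) (z : E)
    (hA1 : S_A1) (hpY : ∀ i, p i ∈ Y)
    (hx0 : ∀ i, 0 ≤ x i) (hxs : ∑ i, x i = 1)
    (hxsup : ∀ i, i ≠ a → i ≠ b → i ≠ c → x i = 0) (hζs : ∑ i, ζ i = 1)
    (hζsup : ∀ i, i ≠ a → i ≠ b → i ≠ c → ζ i = 0) (hζz : pos p ζ = z) (hxc : 0 < x c)
    (hζc : ζ c < 0) (hmin : ∀ i, ζ i < 0 → 0 < x i ∧ x c / (x c - ζ c) ≤ x i / (x i - ζ i))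
    (hMiss : Miss Y (pos p x) z) :
    ∃ (t : ℝ) (x' : Pt N), 0 < t ∧ t < 1 ∧ (∀ i, 0 ≤ x' i) ∧ ∑ i, x' i = 1 ∧ Sup x' {a, b} ∧
      0 < x' a ∧ 0 < x' b ∧ pos p x' = (1 - t) • pos p x + t • z := by
  obtain ⟨-, -, -, -, -, h6, -, h8, -⟩ := hA1 N
  have hden : 0 < x c - ζ c := by linarith
  set t : ℝ := x c / (x c - ζ c) with ht
  have ht0 : 0 < t := div_pos hxc hden
  have ht1 : t < 1 := by
    rw [ht, div_lt_one hden]
    linarith
  have htc : t * (x c - ζ c) = x c := div_mul_cancel₀ _ hden.ne'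
  set x' : Pt N := (1 - t) • x + t • ζ with hx'
  have hx'i : ∀ i, x' i = (1 - t) * x i + t * ζ i := fun i => rfl
  have hnn : ∀ i, 0 ≤ x' i := by
    intro i
    rw [hx'i]
    rcases lt_or_ge (ζ i) 0 with h | h
    · obtain ⟨h1, h2⟩ := hmin i h
      have h3 : 0 < x i - ζ i := by linarith
      rw [le_div_iff₀ h3] at h2
      linarith
    · have h1 := hx0 i
      have h2 : 0 ≤ 1 - t := by linarith
      positivity
  have hsum : ∑ i, x' i = 1 := by
    simp only [hx'i]
    rw [Finset.sum_add_distrib, ← Finset.mul_sum, ← Finset.mul_sum, hxs, hζs]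
    ring
  have hsup : ∀ i, i ≠ a → i ≠ b → x' i = 0 := by
    intro i hia hib
    rw [hx'i]
    by_cases hic : i = c
    · rw [hic]
      linarith
    · rw [hxsup i hia hib hic, hζsup i hia hib hic]
      ring
  have hpos : pos p x' = (1 - t) • pos p x + t • z := by
    rw [hx', h8, hζz]
  have hnot : ∀ d, x' ≠ vx d := by
    intro d hd
    apply hMiss t ht0 ht1
    rw [← hpos, hd, h6]
    exact hpY d
  refine ⟨t, x', ht0, ht1, hnn, hsum, ?_, ?_, ?_, hpos⟩
  · intro v hv
    rw [Finset.mem_insert, Finset.mem_singleton, not_or] at hv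
    exact hsup v hv.1 hv.2
  · rcases (hnn a).lt_or_eq with h | h
    · exact h
    · exfalso
      apply hnot b
      apply exit_pos x' b hsum
      intro i hib
      by_cases hia : i = a
      · rw [hia]
        exact h.symm
      · exact hsup i hia hib
  · rcases (hnn b).lt_or_eq with h | h
    · exact h
    · exfalso
      apply hnot a
      apply exit_pos x' a hsum
      intro i hia
      by_cases hib : i = b
      · rw [hib]
        exact h.symm
      · exact hsup i hia hib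

theorem t_exit (hbary : S_bary) (hA1 : S_A1) : S_exit := by
  intro N p Y u v w x z hpY hs hEnt hMiss
  obtain ⟨ζ, hζsup, hζs, hζz, hζw, hζu, hζv⟩ := hbary N p u v w z hs
  -- the support
  have hsupx : ∀ i, i ≠ u → i ≠ v → i ≠ w → x i = 0 := by
    intro i h1 h2 h3
    apply hEnt.sup
    simp [h1, h2, h3]
  have hsupζ : ∀ i, i ≠ u → i ≠ v → i ≠ w → ζ i = 0 := by
    intro i h1 h2 h3
    apply hζsup
    simp [h1, h2, h3]
  have hxpos : ∀ i, ζ i < 0 → 0 < x i := by
    intro i hi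
    rcases (hEnt.nn i).lt_or_eq with h | h
    · exact h
    · exfalso
      by_cases h1 : i = u
      · subst h1
        have := hEnt.hu h.symm
        rw [← hζu] at this
        nlinarith
      by_cases h2 : i = v
      · subst h2
        have := hEnt.hv h.symm
        rw [← hζv] at this
        nlinarith
      by_cases h3 : i = w
      · subst h3
        have := hEnt.hw h.symm
        rw [← hζw] at this
        nlinarith
      · rw [hsupζ i h1 h2 h3] at hi
        exact lt_irrefl _ hi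
  by_cases hall : ∀ i, 0 ≤ ζ i
  · left
    exact ⟨ζ, hall, hζs, hζsup, hζz⟩
  right
  push Not at hall
  obtain ⟨i₀, hi₀⟩ := hall
  obtain ⟨c, hc, hcmin⟩ := Finset.exists_min_image (Finset.univ.filter fun i => ζ i < 0)
    (fun i => x i / (x i - ζ i)) ⟨i₀, by simp [hi₀]⟩
  have hζc : ζ c < 0 := (Finset.mem_filter.1 hc).2
  have hmin : ∀ i, ζ i < 0 → 0 < x i ∧ x c / (x c - ζ c) ≤ x i / (x i - ζ i) := by
    intro i hi
    exact ⟨hxpos i hi, hcmin i (by simp [hi])⟩
  have hxc := hxpos c hζc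
  by_cases h1 : c = u
  · subst h1
    obtain ⟨t, x', k1, k2, k3, k4, k5, k6, k7, k8⟩ := exit_core p Y v w c x ζ z hA1 hpY
      hEnt.nn hEnt.sum (fun i a b c => hsupx i c a b) hζs (fun i a b c => hsupζ i c a b)
      hζz hxc hζc hmin hMiss
    refine ⟨v, w, c, t, x', Or.inr (Or.inl ⟨rfl, rfl, rfl⟩), k1, k2, k3, k4, k5, k6, k7, k8, ?_⟩
    rw [← hζu]
    exact mul_neg_of_neg_of_pos hζc hs
  by_cases h2 : c = v
  · subst h2
    obtain ⟨t, x', k1, k2, k3, k4, k5, k6, k7, k8⟩ := exit_core p Y w u c x ζ z hA1 hpY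
      hEnt.nn hEnt.sum (fun i a b c => hsupx i b c a) hζs (fun i a b c => hsupζ i b c a)
      hζz hxc hζc hmin hMiss
    refine ⟨w, u, c, t, x', Or.inr (Or.inr ⟨rfl, rfl, rfl⟩), k1, k2, k3, k4, k5, k6, k7, k8, ?_⟩
    rw [← hζv]
    exact mul_neg_of_neg_of_pos hζc hs
  by_cases h3 : c = w
  · subst h3
    obtain ⟨t, x', k1, k2, k3, k4, k5, k6, k7, k8⟩ := exit_core p Y u v c x ζ z hA1 hpY
      hEnt.nn hEnt.sum (fun i a b c => hsupx i a b c) hζs (fun i a b c => hsupζ i a b c)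
      hζz hxc hζc hmin hMiss
    refine ⟨u, v, c, t, x', Or.inl ⟨rfl, rfl, rfl⟩, k1, k2, k3, k4, k5, k6, k7, k8, ?_⟩
    rw [← hζw]
    exact mul_neg_of_neg_of_pos hζc hs
  · exfalso
    rw [hsupζ c h1 h2 h3] at hζc
    exact lt_irrefl _ hζc

end R

end Pool.Agent.Lib.MP_9f84a9_co
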