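import Pool.Agent.Lib.MP_9f84a9_co.R.Stm1

set_option autoImplicit false

/-!
# MP_9f84a9_co, section 1: piece ext
-/

namespace Pool.Agent.Lib.MP_9f84a9_co.R

open Finset

private theorem ext_in {N : ℕ} {K K' : Cx N} (h : ∀ f ∈ K, f ∈ K') {x : Pt N} (hx : In K x) :
    In K' x := by
  obtain ⟨h1, h2, f, hf, hs⟩ := hx
  exact ⟨h1, h2, f, h f hf, hs⟩

private theorem ext_path {N : ℕ} {K K' : Cx N} (h : ∀ f ∈ K, f ∈ K') (c : Pt N → Pt N → ℝ)
    {x y : Pt N} {n : ℕ} {r : ℝ} (hp : Path K c x y n r) : Path K' c x y n r := by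
  induction hp with
  | nil x hx => exact Path.nil x (ext_in h hx)
  | cons x y z k r hs _ ih =>
    obtain ⟨h1, h2, f, hf, hsx, hsy⟩ := hs
    exact Path.cons x y z k r ⟨ext_in h h1, ext_in h h2, f, h f hf, hsx, hsy⟩ ih

private theorem ext_nonneg {N : ℕ} {K : Cx N} {c : Pt N → Pt N → ℝ} (hc : IsCost c)
    {x y : Pt N} {n : ℕ} {r : ℝ} (hp : Path K c x y n r) : 0 ≤ r := by
  induction hp with
  | nil x _ => exact le_rfl
  | cons x y z k r _ _ ih => exact add_nonneg (hc.nonneg x y) ih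

theorem t_ext (hB4 : S_B4) (hB5 : S_B5) : S_ext := by
  intro N D D' k hD hD' hE
  refine ⟨?_, ?_, ?_, ?_, ?_⟩
  · intro D'' k' hE'
    refine ⟨fun f hf => hE'.1 f (hE.1 f hf), ?_⟩
    have h1 := hE.2
    have h2 := hE'.2
    omega
  · intro v hv
    obtain ⟨f, hf, hvf⟩ := (hB4 N D hD).2.1 v hv
    exact (hB4 N D' hD').1 f (hE.1 f hf) v hvf
  · intro x hx
    exact ext_in hE.1 hx
  · intro c x y n r hp
    exact ext_path hE.1 c hp
  · intro c x y hc hx hy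
    unfold dK
    apply csInf_le_csInf
    · refine ⟨0, ?_⟩
      rintro r ⟨k, hk⟩
      exact ext_nonneg hc hk
    · obtain ⟨k, r, hkr⟩ := hB5 N D hD c x y hx hy
      exact ⟨r, k, hkr⟩
    · rintro r ⟨k, hk⟩
      exact ⟨k, ext_path hE.1 c hk⟩

end Pool.Agent.Lib.MP_9f84a9_co.R
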