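import Pool.Agent.Lib.MP_9f84a9_co.R.Stm1

/-!
# MP_9f84a9_co, [R gn]: general position, networks hanging at a point of `Y`
-/

set_option autoImplicit false

namespace Pool.Agent.Lib.MP_9f84a9_co

open Finset Filter Topology

namespace R

private theorem gn_hang (z z' : E) (B : PN) : hang z' B ≤ hang z B + dist z z' := by
  unfold hang
  have := dist_triangle z' z B.top
  rw [dist_comm z' z] at this
  linarith

private theorem gn_ar (a b c : E) : ar a b c = -ar a c b := by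
  unfold ar
  ring

theorem t_gn (hpt : S_pt) (hoff : S_off) (hgn1 : S_gn1) : S_gn := by
  classical
  intro Y U z l r x1 ε hU hε hx1 hlv hnd
  obtain ⟨z', hz'U, hz'd, hz'Y, hz'F⟩ := hpt U z (ε / 6) ((Y ×ˢ Y).filter fun q => q.1 ≠ q.2) Y hU
    (hnd z (by simp [PN.nodes])) (by positivity) (fun q hq => (Finset.mem_filter.1 hq).2)
  have hY : ∀ y₁ ∈ Y, ∀ y₂ ∈ Y, y₁ ≠ y₂ → ar y₁ y₂ z' ≠ 0 := by
    intro y₁ h1 y₂ h2 h12
    exact hz'F (y₁, y₂) (Finset.mem_filter.2 ⟨Finset.mem_product.2 ⟨h1, h2⟩, h12⟩)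
  have hx : ∀ y ∈ Y, y ≠ x1 → ar x1 y z' ≠ 0 := fun y hy hyx => hY x1 hx1 y hy (Ne.symm hyx)
  have hmiss : Miss Y x1 z' := hoff.2.1 Y x1 z' hz'Y hx
  obtain ⟨l', hl1, hl2, hl3, hl4⟩ := hgn1 Y U l z' (ε / 4) hU (by positivity) hz'Y hY
    (fun x hx' => hlv x (by simp [PN.leaves, hx'])) (fun u hu => hnd u (by simp [PN.nodes, hu]))
  obtain ⟨r', hr1, hr2, hr3, hr4⟩ := hgn1 Y U r z' (ε / 4) hU (by positivity) hz'Y hY
    (fun x hx' => hlv x (by simp [PN.leaves, hx'])) (fun u hu => hnd u (by simp [PN.nodes, hu]))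
  refine ⟨z', l', r', ?_, ?_, ?_, ?_, ?_⟩
  · simp only [PN.leaves, hl1, hr1]
  · intro u hu
    simp only [PN.nodes, List.mem_cons, List.mem_append] at hu
    rcases hu with rfl | hu | hu
    · exact hz'U
    · exact hl2 u hu
    · exact hr2 u hu
  · exact ⟨hz'Y, hmiss, hl3, hr3⟩
  · intro y hy hyx h0
    apply hx y hy hyx
    rw [gn_ar, h0, neg_zero]
  · rw [hang_node, hang_node]
    have h1 := gn_hang z z' l
    have h2 := gn_hang z z' r
    have h3 := dist_triangle x1 z z'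
    linarith

end R

end Pool.Agent.Lib.MP_9f84a9_co
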