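import Pool.Agent.Lib.MP_9f84a9_co.R.Stm1

/-!
# MP_9f84a9_co, section 1, `gn1`: general position
-/

set_option autoImplicit false

namespace Pool.Agent.Lib.MP_9f84a9_co

open Finset Filter Topology

namespace R

private theorem gn1_hang (z z' : E) (l : PN) : hang z' l ≤ hang z l + dist z z' := by
  unfold hang
  have := dist_triangle z' z l.top
  rw [dist_comm z' z] at this
  linarith

theorem t_gn1 (hpt : S_pt) (hoff : S_off) : S_gn1 := by
  classical
  intro Y U B
  induction B with
  | leaf x =>
    intro q ε _ hε hq hgen hl _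
    refine ⟨PN.leaf x, rfl, ?_, ?_, ?_⟩
    · intro z hz
      simp [PN.nodes] at hz
    · have hx : x ∈ Y := hl x (by simp [PN.leaves])
      exact hoff.2.2 Y q x hq (fun y hy hyx => hgen x hx y hy (fun h => hyx h.symm))
    · linarith
  | node z l r ihl ihr =>
    intro q ε hU hε hq hgen hlv hnd
    have hzU : z ∈ U := hnd z (by simp [PN.nodes])
    obtain ⟨z', hz'U, hzz', hz'Y, hz'F⟩ := hpt U z (ε / 6)
      (((Y ×ˢ Y).filter (fun c => c.1 ≠ c.2)) ∪ (Y.image (fun y => (q, y)))) Y hU hzU
      (by positivity) (by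
        intro c hc
        rw [Finset.mem_union] at hc
        rcases hc with hc | hc
        · exact (Finset.mem_filter.1 hc).2
        · obtain ⟨y, hy, rfl⟩ := Finset.mem_image.1 hc
          intro h
          exact hq (by
            have : q = y := h
            rw [this]
            exact hy))
    have hgen' : ∀ y₁ ∈ Y, ∀ y₂ ∈ Y, y₁ ≠ y₂ → ar y₁ y₂ z' ≠ 0 := by
      intro y₁ h₁ y₂ h₂ hne
      exact hz'F (y₁, y₂) (Finset.mem_union_left _
        (Finset.mem_filter.2 ⟨Finset.mk_mem_product h₁ h₂, hne⟩))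
    have hqy : ∀ y ∈ Y, ar q y z' ≠ 0 := by
      intro y hy
      exact hz'F (q, y) (Finset.mem_union_right _ (Finset.mem_image.2 ⟨y, hy, rfl⟩))
    obtain ⟨l', hl1, hl2, hl3, hl4⟩ := ihl z' (ε / 4) hU (by positivity) hz'Y hgen'
      (fun x hx => hlv x (by simp [PN.leaves, hx])) (fun x hx => hnd x (by simp [PN.nodes, hx]))
    obtain ⟨r', hr1, hr2, hr3, hr4⟩ := ihr z' (ε / 4) hU (by positivity) hz'Y hgen'
      (fun x hx => hlv x (by simp [PN.leaves, hx])) (fun x hx => hnd x (by simp [PN.nodes, hx]))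
    refine ⟨PN.node z' l' r', ?_, ?_, ?_, ?_⟩
    · simp only [PN.leaves, hl1, hr1]
    · intro x hx
      simp only [PN.nodes, List.mem_cons, List.mem_append] at hx
      rcases hx with rfl | hx | hx
      · exact hz'U
      · exact hl2 x hx
      · exact hr2 x hx
    · exact ⟨hz'Y, hoff.1 Y q z' hq hqy, hl3, hr3⟩
    · rw [hang_node, hang_node]
      have h1 := gn1_hang z z' l
      have h2 := gn1_hang z z' r
      have h3 := dist_triangle q z z'
      linarith

end R

end Pool.Agent.Lib.MP_9f84a9_co
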