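import Pool.Agent.Lib.MP_9f84a9_co.R.Stm2

/-!
# MP_9f84a9_co, section 1, `gsum`: families of weighted pairs
-/

set_option autoImplicit false

namespace Pool.Agent.Lib.MP_9f84a9_co

open Finset

namespace R

open Classical in
/-- the contribution of `t` to the pair `x, y` -/
private noncomputable def gsum_c {X : Finset E} (e : X → ℕ) (M : ℝ) (x y : X) (t : ℕ × ℕ × ℝ) : ℝ :=
  (if t.1 = e x ∧ t.2.1 = e y then M * t.2.2 else 0) +
    (if t.1 = e y ∧ t.2.1 = e x then M * t.2.2 else 0)

private theorem gsum_c0 {X : Finset E} (e : X → ℕ) (M : ℝ) (hM : 0 < M) (x y : X) (t : ℕ × ℕ × ℝ)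
    (ht : 0 ≤ t.2.2) : 0 ≤ gsum_c e M x y t := by
  unfold gsum_c
  have : 0 ≤ M * t.2.2 := by positivity
  split_ifs <;> linarith

private theorem gsum_one {X : Finset E} (e : X → ℕ) (he : Function.Injective e) (M : ℝ)
    (t : ℕ × ℕ × ℝ) (x₀ y₀ : X) (hx : e x₀ = t.1) (hy : e y₀ = t.2.1) :
    ∑ x : X, ∑ y : X, gsum_c e M x y t = 2 * M * t.2.2 := by
  classical
  have h1 : ∀ x y : X, gsum_c e M x y t = (if x₀ = x then (if y₀ = y then M * t.2.2 else 0) else 0) +
      (if y₀ = x then (if x₀ = y then M * t.2.2 else 0) else 0) := by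
    intro x y
    unfold gsum_c
    rw [← hx, ← hy]
    simp only [he.eq_iff]
    congr 1
    · by_cases h1 : x₀ = x <;> by_cases h2 : y₀ = y <;> simp [h1, h2]
    · by_cases h1 : x₀ = y <;> by_cases h2 : y₀ = x <;> simp [h1, h2]
  simp only [h1, Finset.sum_add_distrib]
  have h2 : ∀ a b : X, ∑ x : X, ∑ y : X, (if a = x then (if b = y then M * t.2.2 else 0) else 0) =
      M * t.2.2 := by
    intro a b
    rw [Finset.sum_eq_single a]
    · simp
    · intro c _ hc
      apply Finset.sum_eq_zero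
      intro y _
      rw [if_neg (fun h => hc h.symm)]
    · simp
  rw [h2, h2]
  ring

private theorem gsum_list {X : Finset E} (e : X → ℕ) (he : Function.Injective e) (M : ℝ)
    (l : List (ℕ × ℕ × ℝ)) (hl : ∀ t ∈ l, ∃ x y : X, e x = t.1 ∧ e y = t.2.1) :
    ∑ x : X, ∑ y : X, (l.map (gsum_c e M x y)).sum = 2 * M * (l.map (·.2.2)).sum := by
  induction l with
  | nil => simp
  | cons t l ih =>
    simp only [List.map_cons, List.sum_cons, Finset.sum_add_distrib]
    rw [ih (fun s hs => hl s (List.mem_cons_of_mem _ hs))]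
    obtain ⟨x₀, y₀, hx, hy⟩ := hl t List.mem_cons_self
    rw [gsum_one e he M t x₀ y₀ hx hy]
    ring

theorem t_gsum : S_gsum := by
  classical
  intro X e Cl M l hX he hCl hM hJ hmin hl
  let H : SimpleGraph X :=
    { Adj := fun x y => x ≠ y ∧ ∃ r, (e x, e y, r) ∈ l ∨ (e y, e x, r) ∈ l
      symm := ⟨fun x y h => ⟨h.1.symm, by
        obtain ⟨r, h1 | h1⟩ := h.2
        · exact ⟨r, Or.inr h1⟩
        · exact ⟨r, Or.inl h1⟩⟩⟩
      loopless := ⟨fun x h => h.1 rfl⟩ }
  have hconn : H.Connected := by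
    have hne : Nonempty X := ⟨⟨hX.choose, hX.choose_spec⟩⟩
    refine SimpleGraph.Connected.mk ?_
    intro x y
    have key : ∀ b, Relation.ReflTransGen
        (fun x y => ∃ r, (x, y, r) ∈ l ∨ (y, x, r) ∈ l) (e x) b →
        ∃ y' : X, e y' = b ∧ H.Reachable x y' := by
      intro b hb
      induction hb with
      | refl => exact ⟨x, rfl, SimpleGraph.Reachable.refl x⟩
      | tail _ hbc ih =>
        rename_i b c _
        obtain ⟨y', hy', hr⟩ := ih
        have hex : ∃ y1 : X, e y1 = c := by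
          obtain ⟨r, h1 | h1⟩ := hbc
          · obtain ⟨-, a1, b1, -, k2, -⟩ := hl _ h1
            exact ⟨b1, k2⟩
          · obtain ⟨-, a1, b1, k1, -, -⟩ := hl _ h1
            exact ⟨a1, k1⟩
        obtain ⟨y1, hy1⟩ := hex
        refine ⟨y1, hy1, ?_⟩
        by_cases h : y' = y1
        · rw [← h]
          exact hr
        · refine hr.trans (SimpleGraph.Adj.reachable ?_)
          refine ⟨h, ?_⟩
          rw [hy', hy1]
          exact hbc
    obtain ⟨y', hy', hr⟩ := key (e y) (hJ (e x) (hCl x) (e y) (hCl y))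
    rw [← he hy']
    exact hr
  have h1 := hmin H hconn
  have h2 : WG X H ≤ 2 * M * (l.map (·.2.2)).sum := by
    rw [← gsum_list e he M l (fun t ht => by
      obtain ⟨-, x, y, hx, hy, -⟩ := hl t ht
      exact ⟨x, y, hx, hy⟩)]
    unfold WG
    apply Finset.sum_le_sum
    intro x _
    apply Finset.sum_le_sum
    intro y _
    have hnn : ∀ s ∈ l.map (gsum_c e M x y), 0 ≤ s := by
      intro s hs
      obtain ⟨t, ht, rfl⟩ := List.mem_map.1 hs
      exact gsum_c0 e M hM x y t (hl t ht).1
    by_cases hadj : H.Adj x y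
    · rw [if_pos hadj]
      obtain ⟨-, r, hr | hr⟩ := hadj
      · obtain ⟨h0, a, b, ha, hb, hd⟩ := hl _ hr
        have ha' : a = x := he ha
        have hb' : b = y := he hb
        subst ha' hb'
        refine (hd.trans ?_).trans (List.single_le_sum hnn _ (List.mem_map.2 ⟨_, hr, rfl⟩))
        unfold gsum_c
        rw [if_pos ⟨rfl, rfl⟩]
        have : 0 ≤ M * r := mul_nonneg hM.le h0
        split_ifs <;> linarith
      · obtain ⟨h0, a, b, ha, hb, hd⟩ := hl _ hr
        have ha' : a = y := he ha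
        have hb' : b = x := he hb
        subst ha' hb'
        rw [dist_comm]
        refine (hd.trans ?_).trans (List.single_le_sum hnn _ (List.mem_map.2 ⟨_, hr, rfl⟩))
        unfold gsum_c
        rw [if_pos (⟨rfl, rfl⟩ : (e a, e b, r).1 = e a ∧ (e a, e b, r).2.1 = e b)]
        have : 0 ≤ M * r := mul_nonneg hM.le h0
        split_ifs <;> linarith
    · rw [if_neg hadj]
      exact List.sum_nonneg hnn
  have h3 : 2 * M * 1 ≤ 2 * M * (l.map (·.2.2)).sum := by linarith
  exact le_of_mul_le_mul_left h3 (by linarith)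

end R

end Pool.Agent.Lib.MP_9f84a9_co
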