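import Pool.Agent.Lib.MP_9f84a9_co.R.Stm1

/-!
# MP_9f84a9_co, section 1, `ins`: the inside of a triangle
-/

set_option autoImplicit false

namespace Pool.Agent.Lib.MP_9f84a9_co

open Finset Filter Topology

namespace R

private theorem ins_cont (A B : E) : Continuous (fun z : E => ar A B z) := by
  unfold ar
  fun_prop

private theorem ins_conv (s : Set E) (hs : Convex ℝ s) (A B C : E) (hA : A ∈ s) (hB : B ∈ s)
    (hC : C ∈ s) (α β γ : ℝ) (h1 : 0 ≤ α) (h2 : 0 ≤ β) (h3 : 0 ≤ γ) (h : α + β + γ = 1) :
    α • A + β • B + γ • C ∈ s := by
  have := hs.sum_mem (t := Finset.univ) (w := ![α, β, γ]) (z := ![A, B, C])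
    (by
      intro i _
      fin_cases i
      · exact h1
      · exact h2
      · exact h3)
    (by simpa [Fin.sum_univ_three] using h)
    (by
      intro i _
      fin_cases i
      · exact hA
      · exact hB
      · exact hC)
  simpa [Fin.sum_univ_three] using this

theorem t_ins : S_ins := by
  intro A B C
  refine ⟨?_, ?_⟩
  · intro Y z hA hB hC hz
    obtain ⟨h3, h1, h2⟩ := hz
    have hs : ar B C z + ar C A z + ar A B z = ar A B C := by
      unfold ar
      ring
    have hs0 : 0 < ar A B C := by
      rw [← hs]
      linarith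
    have hz : z = (ar B C z / ar A B C) • A + (ar C A z / ar A B C) • B +
        (ar A B z / ar A B C) • C := by
      have hne := hs0.ne'
      ext i
      fin_cases i
      · show z 0 = ar B C z / ar A B C * A 0 + ar C A z / ar A B C * B 0 + ar A B z / ar A B C * C 0
        field_simp
        unfold ar
        ring
      · show z 1 = ar B C z / ar A B C * A 1 + ar C A z / ar A B C * B 1 + ar A B z / ar A B C * C 1
        field_simp
        unfold ar
        ring
    rw [hz]
    exact ins_conv _ (convex_convexHull ℝ (Y : Set E)) A B C (subset_convexHull ℝ _ hA)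
      (subset_convexHull ℝ _ hB) (subset_convexHull ℝ _ hC) _ _ _ (div_pos h1 hs0).le
      (div_pos h2 hs0).le (div_pos h3 hs0).le
      (by rw [← add_div, ← add_div, hs, div_self hs0.ne'])
  · have h : {z : E | Ins A B C z} = {z : E | 0 < ar A B z} ∩ ({z : E | 0 < ar B C z} ∩
        {z : E | 0 < ar C A z}) := by
      ext z
      exact Iff.rfl
    rw [h]
    exact (isOpen_lt continuous_const (ins_cont A B)).inter
      ((isOpen_lt continuous_const (ins_cont B C)).inter
        (isOpen_lt continuous_const (ins_cont C A)))

end R

end Pool.Agent.Lib.MP_9f84a9_co
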