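import Pool.Agent.Lib.MP_9f84a9_co.R.Stm2

/-!
# MP_9f84a9_co, section 1, piece low: the chain metric is at least the Euclidean distance
-/

set_option autoImplicit false

namespace Pool.Agent.Lib.MP_9f84a9_co

namespace R

theorem t_low (hA3 : S_A3) (hB5 : S_B5) : S_low := by
  intro N D p hD x y hx hy
  exact hA3 N D.K (ce p) (ce p) (hB5 N D hD) (fun z _ => le_of_eq (dist_self _))
    (fun x y z _ _ _ => dist_triangle _ _ _) (fun x y _ => le_refl _) x y hx hy

end R

end Pool.Agent.Lib.MP_9f84a9_co
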