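import Pool.Agent.Lib.MP_9f84a9_co.R.Stm1

set_option autoImplicit false

/-!
# MP_9f84a9_co, section 1: piece ms
-/

namespace Pool.Agent.Lib.MP_9f84a9_co.R

open Finset

private theorem ms_aff (A B x y : E) (t : ℝ) :
    ar A B ((1 - t) • x + t • y) = (1 - t) * ar A B x + t * ar A B y := by
  simp only [ar, PiLp.add_apply, PiLp.smul_apply, smul_eq_mul]
  ring

private theorem ms_zero (A B : E) : ar A B A = 0 ∧ ar A B B = 0 := by
  constructor
  · simp only [ar]
    ring
  · simp only [ar]
    ring

theorem t_ms : S_ms := by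
  classical
  refine ⟨?_, ?_⟩
  · intro Y q z A B t s ht0 ht1 hs0 hs1 hA hB heq hne
    have hq' : ar A B ((1 - t) • q + t • z) = 0 := by
      rw [heq, ms_aff, (ms_zero A B).1, (ms_zero A B).2]
      ring
    unfold ms
    apply card_lt_card
    rw [ssubset_iff_of_subset]
    · refine ⟨(A, B), ?_, ?_⟩
      · rw [mem_filter, mem_product]
        exact ⟨⟨hA, hB⟩, t, s, ht0, ht1.le, hs0, hs1, heq⟩
      · rw [mem_filter]
        rintro ⟨-, t', s', h1, h2, h3, h4, h5⟩
        simp only at h5
        have h6 := congrArg (ar A B) h5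
        rw [ms_aff A B ((1 - t) • q + t • z) z t', hq', ms_aff A B A B s', (ms_zero A B).1,
          (ms_zero A B).2, mul_zero, mul_zero, mul_zero, zero_add, zero_add] at h6
        rcases mul_eq_zero.1 h6 with h7 | h7
        · exact h1.ne' h7
        · exact hne h7
    · intro c hc
      rw [mem_filter] at hc ⊢
      obtain ⟨hc1, t', s', h1, h2, h3, h4, h5⟩ := hc
      refine ⟨hc1, t + t' * (1 - t), s', ?_, ?_, h3, h4, ?_⟩
      · have : 0 ≤ t' * (1 - t) := mul_nonneg h1.le (by linarith only [ht1])
        linarith only [this, ht0]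
      · nlinarith only [h2, ht1]
      · rw [← h5]
        module
  · intro Y q z
    unfold ms
    refine (card_filter_le _ _).trans (le_of_eq ?_)
    rw [card_product, sq]

end Pool.Agent.Lib.MP_9f84a9_co.R
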