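import Pool.Agent.Lib.MP_9f84a9_co.R.Stm2

/-!
# MP_9f84a9_co, section 1, `mstX`: a shortest connected graph
-/

set_option autoImplicit false

namespace Pool.Agent.Lib.MP_9f84a9_co

open Finset

namespace R

theorem t_mstX : S_mstX := by
  classical
  intro X hX
  have hne : Nonempty X := ⟨⟨hX.choose, hX.choose_spec⟩⟩
  have hfin : Finite (SimpleGraph X) :=
    Finite.of_injective (fun G : SimpleGraph X => G.Adj) (fun G H h => by
      ext a b
      have := congrFun (congrFun h a) b
      simp only at this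
      rw [this])
  obtain ⟨H, hH, hmin⟩ := Set.exists_min_image {H : SimpleGraph X | H.Connected} (WG X)
    (Set.toFinite _) ⟨⊤, SimpleGraph.connected_top⟩
  refine ⟨H, hH, fun H' hH' => hmin H' hH', ?_⟩
  intro hcard
  obtain ⟨x, hx, y, hy, hxy⟩ := Finset.one_lt_card.1 (by omega : 1 < X.card)
  have hadj : ∃ u : X, H.Adj ⟨x, hx⟩ u := by
    obtain ⟨w⟩ := hH.preconnected ⟨x, hx⟩ ⟨y, hy⟩
    cases w with
    | nil => exact absurd rfl hxy
    | cons h _ => exact ⟨_, h⟩
  obtain ⟨u, hu⟩ := hadj
  have h0 : ∀ a b : X, 0 ≤ (if H.Adj a b then dist (a : E) (b : E) else 0) := by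
    intro a b
    split_ifs
    · exact dist_nonneg
    · exact le_rfl
  unfold WG
  apply Finset.sum_pos'
  · intro a _
    exact Finset.sum_nonneg fun b _ => h0 a b
  · refine ⟨⟨x, hx⟩, Finset.mem_univ _, ?_⟩
    apply Finset.sum_pos'
    · intro b _
      exact h0 _ b
    · refine ⟨u, Finset.mem_univ _, ?_⟩
      rw [if_pos hu, dist_pos]
      intro h
      exact hu.ne (Subtype.ext h)

end R

end Pool.Agent.Lib.MP_9f84a9_co
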