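import Pool.Agent.Lib.MP_9f84a9_co.R.Stm1

set_option autoImplicit false

/-!
# MP_9f84a9_co, section 1: piece nb
-/

namespace Pool.Agent.Lib.MP_9f84a9_co.R

open Finset

private theorem nb_zero (A B : E) : ar A B A = 0 ∧ ar A B B = 0 := by
  constructor
  · simp only [ar]
    ring
  · simp only [ar]
    ring

private theorem nb_swap (A B C : E) : ar B A C = - ar A B C := by
  simp only [ar]
  ring

private theorem nb_pos {N : ℕ} (p : Fin N → E) (A B : E) (x : Pt N) (hx : ∑ i, x i = 1) :
    ar A B (pos p x) = ∑ i, x i * ar A B (p i) := by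
  have h0 : (pos p x) 0 = ∑ i, x i * p i 0 := by
    simp [pos]
  have h1 : (pos p x) 1 = ∑ i, x i * p i 1 := by
    simp [pos]
  have h2 : ∑ i, x i * ar A B (p i) =
      (B 0 - A 0) * (∑ i, x i * p i 1 - (∑ i, x i) * A 1) -
        (B 1 - A 1) * (∑ i, x i * p i 0 - (∑ i, x i) * A 0) := by
    rw [sum_mul, sum_mul, ← sum_sub_distrib, ← sum_sub_distrib, mul_sum, mul_sum,
      ← sum_sub_distrib]
    apply sum_congr rfl
    intro i _
    simp only [ar]
    ring
  rw [h2, hx, one_mul, one_mul]
  simp only [ar]
  rw [h0, h1]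

private theorem nb_sup {N : ℕ} {u v w : Fin N} (hvu : v ≠ u) (hvw : v ≠ w) (huw : u ≠ w)
    (x : Pt N) (hs : Sup x {v, u, w}) (g : Fin N → ℝ) :
    ∑ i, x i * g i = x v * g v + x u * g u + x w * g w := by
  rw [← sum_subset (subset_univ ({v, u, w} : Finset (Fin N)))]
  · rw [sum_insert (by simp [hvu, hvw]), sum_insert (by simp [huw]), sum_singleton, add_assoc]
  · intro i _ hi
    rw [hs i hi, zero_mul]

theorem t_nb (hB1 : S_B1) (hB2 : S_B2) (hside : S_side) : S_nb := by
  classical
  intro N M p Y D u v w z hN hE hlen hf har hz harz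
  have huv : u ≠ v := by
    rintro rfl
    rw [show ar (p u) (p u) (p w) = 0 by simp only [ar]; ring] at har
    exact lt_irrefl _ har
  have huw : u ≠ w := by
    rintro rfl
    rw [(nb_zero _ _).1] at har
    exact lt_irrefl _ har
  have hvw : v ≠ w := by
    rintro rfl
    rw [(nb_zero _ _).2] at har
    exact lt_irrefl _ har
  obtain ⟨D1, w1, l, r, hEq, hP, hfD, hor⟩ := (hB2 N D hE.ok _ hf u (by simp) v (by simp)
    huv).2 hE.tri
  obtain ⟨hperm, hok, hK, -, hall⟩ := hB1 N D D1 hEq
  have hok1 : D1.ok := hok.1 hE.ok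
  have hsp1 : D1.SPos p := (hall p).2.1.1 hE.spos
  obtain ⟨a1, b1, P1, R1⟩ := D1
  simp only at hP hfD hor
  subst hP
  have hpos1 : 0 < ar (p a1) (p b1) (p w1) := hsp1.1.1
  have hw1a : w1 ≠ a1 := by
    rintro rfl
    rw [(nb_zero _ _).1] at hpos1
    exact lt_irrefl _ hpos1
  have hw1b : w1 ≠ b1 := by
    rintro rfl
    rw [(nb_zero _ _).2] at hpos1
    exact lt_irrefl _ hpos1
  have hw1 : w1 = w := by
    have h1 : w1 ∈ ({u, v, w} : Finset (Fin N)) := by
      rw [hfD]
      simp
    simp only [mem_insert, mem_singleton] at h1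
    rcases hor with ⟨rfl, rfl⟩ | ⟨rfl, rfl⟩
    · rcases h1 with h | h | h
      · exact absurd h hw1a
      · exact absurd h hw1b
      · exact h
    · rcases h1 with h | h | h
      · exact absurd h hw1b
      · exact absurd h hw1a
      · exact h
  subst hw1
  rcases hor with ⟨rfl, rfl⟩ | ⟨rfl, rfl⟩
  swap
  · exfalso
    rw [nb_swap] at hpos1
    linarith only [har, hpos1]
  -- now `D1 = ⟨a1, b1, node w1 l r, R1⟩`
  have hlen1 : (Dsc.mk a1 b1 (PT.node w1 l r) R1).vl.length = D.vl.length := hperm.length_eq.symm
  cases hR : R1 with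
  | node w' l' r' =>
    subst hR
    refine ⟨⟨a1, b1, PT.node w1 l r, PT.node w' l' r'⟩, w', ⟨hok1, hsp1, ?_, ?_⟩, ⟨?_, ?_⟩, ?_, ?_⟩
    · simp
    · intro x hx hxY
      rw [← hK] at hx
      obtain ⟨v', hv', hxv⟩ := hE.emp x hx hxY
      exact ⟨v', hperm.mem_iff.1 hv', hxv⟩
    · intro f hf
      rw [← hK]
      exact hf
    · rw [hlen1]
      exact Nat.le_succ _
    · simp [Dsc.K, PT.fac]
    · exact hsp1.2.1
  | nil =>
    subst hR
    obtain ⟨y0, hy0, hy0p⟩ := hside Y (p b1) (p a1) z hz (by rw [nb_swap]; linarith only [harz])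
    obtain ⟨y, hy, hymin⟩ := exists_min_image (Y.filter fun y => 0 < ar (p b1) (p a1) y)
      (fun y => ar (p b1) (p a1) y) ⟨y0, mem_filter.2 ⟨hy0, hy0p⟩⟩
    rw [mem_filter] at hy
    obtain ⟨hyY, hyp⟩ := hy
    obtain ⟨w', hw'y, hw'D⟩ : ∃ w' : Fin N, p w' = y ∧ w' ∉ D.vl := by
      by_contra hcon
      push Not at hcon
      have h1 := hN.many y hyY
      have h2 : Nat.card {v : Fin N // p v = y} ≤ D.vl.toFinset.card := by
        rw [Nat.card_eq_fintype_card, Fintype.card_subtype]
        apply card_le_card
        intro i hi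
        rw [mem_filter] at hi
        rw [List.mem_toFinset]
        exact hcon i hi.2
      have h3 := D.vl.toFinset_card_le
      omega
    have hw'D1 : w' ∉ (Dsc.mk a1 b1 (PT.node w1 l r) PT.nil).vl := fun h =>
      hw'D (hperm.mem_iff.2 h)
    have hpw' : 0 < ar (p b1) (p a1) (p w') := by
      rw [hw'y]
      exact hyp
    have hK' : (Dsc.mk a1 b1 (PT.node w1 l r) (PT.node w' PT.nil PT.nil)).K =
        D.K ∪ {{b1, a1, w'}} := by
      rw [hK]
      simp only [Dsc.K, PT.fac, reduceCtorEq, false_and, if_false, and_true, union_empty,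
        insert_empty_eq]
    have hvl' : (Dsc.mk a1 b1 (PT.node w1 l r) (PT.node w' PT.nil PT.nil)).vl =
        (Dsc.mk a1 b1 (PT.node w1 l r) PT.nil).vl ++ [w'] := by
      simp [Dsc.vl, PT.vs]
    have hmem' : ∀ i, i ∈ D.vl →
        i ∈ (Dsc.mk a1 b1 (PT.node w1 l r) (PT.node w' PT.nil PT.nil)).vl := by
      intro i hi
      rw [hvl']
      exact List.mem_append_left _ (hperm.mem_iff.1 hi)
    refine ⟨⟨a1, b1, PT.node w1 l r, PT.node w' PT.nil PT.nil⟩, w', ⟨?_, ?_, ?_, ?_⟩, ⟨?_, ?_⟩,
      ?_, hpw'⟩
    · show List.Nodup _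
      rw [hvl', List.nodup_append]
      refine ⟨hok1, List.nodup_singleton _, ?_⟩
      intro i hi j hj hij
      rw [List.mem_singleton] at hj
      subst hj
      subst hij
      exact hw'D1 hi
    · exact ⟨hsp1.1, hpw', trivial, trivial⟩
    · simp
    · intro x hx hxY
      obtain ⟨hx0, hx1, f, hfK, hxf⟩ := hx
      rw [hK', mem_union, mem_singleton] at hfK
      have hold : In D.K x → ∃ v' ∈
          (Dsc.mk a1 b1 (PT.node w1 l r) (PT.node w' PT.nil PT.nil)).vl, x = vx v' := by
        intro h
        obtain ⟨v', hv', hxv⟩ := hE.emp x h hxY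
        exact ⟨v', hmem' v' hv', hxv⟩
      rcases hfK with hfK | rfl
      · exact hold ⟨hx0, hx1, f, hfK, hxf⟩
      · by_cases hxw : x w' = 0
        · apply hold
          refine ⟨hx0, hx1, {a1, b1, w1}, hf, ?_⟩
          intro i hi
          by_cases hi' : i = w'
          · rw [hi', hxw]
          · apply hxf
            simp only [mem_insert, mem_singleton, not_or] at hi ⊢
            exact ⟨hi.2.1, hi.1, hi'⟩
        · have hba : b1 ≠ a1 := huv.symm
          have hbw : b1 ≠ w' := by
            rintro rfl
            rw [(nb_zero _ _).1] at hpw'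
            exact lt_irrefl _ hpw'
          have haw : a1 ≠ w' := by
            rintro rfl
            rw [(nb_zero _ _).2] at hpw'
            exact lt_irrefl _ hpw'
          have h1 : ar (p b1) (p a1) (pos p x) = x w' * ar (p b1) (p a1) (p w') := by
            rw [nb_pos p _ _ x hx1, nb_sup hba hbw haw x hxf, (nb_zero _ _).1, (nb_zero _ _).2]
            ring
          have h2 : x b1 + x a1 + x w' = 1 := by
            have := nb_sup hba hbw haw x hxf (fun _ => 1)
            simp only [mul_one] at this
            rw [← this]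
            exact hx1
          have hxpos : 0 < x w' := lt_of_le_of_ne (hx0 w') (Ne.symm hxw)
          have h3 : ar (p b1) (p a1) y ≤ ar (p b1) (p a1) (pos p x) := by
            apply hymin
            rw [mem_filter]
            refine ⟨hxY, ?_⟩
            rw [h1]
            exact mul_pos hxpos hpw'
          rw [h1, ← hw'y] at h3
          have h4 : 1 ≤ x w' := by
            by_contra h5
            rw [not_le] at h5
            have h6 : x w' * ar (p b1) (p a1) (p w') < 1 * ar (p b1) (p a1) (p w') :=
              mul_lt_mul_of_pos_right h5 hpw'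
            rw [one_mul] at h6
            exact absurd h3 (not_le.2 h6)
          have h5 := hx0 b1
          have h6 := hx0 a1
          refine ⟨w', ?_, ?_⟩
          · rw [hvl']
            simp
          · funext i
            by_cases hi : i = w'
            · subst hi
              rw [vx, Pi.single_eq_same]
              linarith only [h2, h4, h5, h6]
            · rw [vx, Pi.single_eq_of_ne hi]
              by_cases hib : i = b1
              · rw [hib]
                linarith only [h2, h4, h5, h6]
              · by_cases hia : i = a1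
                · rw [hia]
                  linarith only [h2, h4, h5, h6]
                · apply hxf
                  simp only [mem_insert, mem_singleton, not_or]
                  exact ⟨hib, hia, hi⟩
    · intro g hg
      rw [hK']
      exact mem_union_left _ hg
    · rw [hvl', List.length_append, hlen1]
      simp
    · rw [hK']
      exact mem_union_right _ (mem_singleton_self _)

end Pool.Agent.Lib.MP_9f84a9_co.R
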