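import Pool.Agent.Lib.MP_9f84a9_co.R.Stm1

set_option autoImplicit false

namespace Pool.Agent.Lib.MP_9f84a9_co

open Finset Filter Topology

namespace R

private theorem net_pos_leaves (B : PN) : 1 ≤ B.leaves.length := by
  induction B with
  | leaf x => simp [PN.leaves]
  | node z l r ihl ihr =>
    simp only [PN.leaves, List.length_append]
    omega

private theorem net_top {N : ℕ} (hB4 : S_B4) (hA1 : S_A1) (D : Dsc N) (hok : D.ok) (A : Net N)
    (hn : ∀ z ∈ A.nodes, In D.K z) (hl : ∀ v ∈ A.leaves, v ∈ D.vl) : In D.K A.top := by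
  cases A with
  | leaf v =>
    obtain ⟨f, hf, hv⟩ := (hB4 N D hok).2.1 v (hl v (by simp [Net.leaves]))
    exact ((hA1 N).2.2.2.2.1 D.K f v hf hv).1
  | node z l r => exact hn z (by simp [Net.nodes])

private theorem net_len {N : ℕ} (hB4 : S_B4) (hA1 : S_A1) (hext : S_ext) (D D' : Dsc N) (k : ℕ)
    (hok : D.ok) (hok' : D'.ok) (hE : Ext k D D') (c : Pt N → Pt N → ℝ) (hc : IsCost c)
    (A : Net N) (hn : ∀ z ∈ A.nodes, In D.K z) (hl : ∀ v ∈ A.leaves, v ∈ D.vl) :
    A.len (dK D'.K c) ≤ A.len (dK D.K c) := by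
  induction A with
  | leaf v => simp [Net.len]
  | node z l r ihl ihr =>
    have hnl : ∀ z ∈ l.nodes, In D.K z := fun w hw => hn w (by simp [Net.nodes, hw])
    have hnr : ∀ z ∈ r.nodes, In D.K z := fun w hw => hn w (by simp [Net.nodes, hw])
    have hll : ∀ v ∈ l.leaves, v ∈ D.vl := fun w hw => hl w (by simp [Net.leaves, hw])
    have hlr : ∀ v ∈ r.leaves, v ∈ D.vl := fun w hw => hl w (by simp [Net.leaves, hw])
    have h1 := ihl hnl hll
    have h2 := ihr hnr hlr
    have hz : In D.K z := hn z (by simp [Net.nodes])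
    obtain ⟨_, _, _, _, h5⟩ := hext N D D' k hok hok' hE
    have h3 := h5 c z l.top hc hz (net_top hB4 hA1 D hok l hnl hll)
    have h4 := h5 c z r.top hc hz (net_top hB4 hA1 D hok r hnr hlr)
    simp only [Net.len]
    linarith

theorem t_net (hsg0 : S_sg0) (hext : S_ext) (hA1 : S_A1) (hB4 : S_B4) : S_net := by
  intro N M p Y B
  induction B with
  | leaf x0 =>
    intro D x hN hE hlen hIn hpos _ hlv hG
    have hx0 : x0 ∈ Y := hlv x0 (by simp [PN.leaves])
    simp only [PN.leaves, List.length_singleton] at hlen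
    have hlen' : D.vl.length + (Y.card ^ 2 + 1) < M := by omega
    obtain ⟨D', y, hE', hEx, hIn', hpy, hv, hd⟩ := hsg0 N M p Y D x x0 hN hE hlen' hIn hpos
      (subset_convexHull ℝ _ (by exact_mod_cast hx0)) hG
    obtain ⟨v, hvv, rfl⟩ := hv hx0
    have hpv : p v = x0 := by rw [← hpy, (hA1 N).2.2.2.2.2.1]
    refine ⟨D', Net.leaf v, hE', ?_, ?_, ?_, ?_, ?_⟩
    · simpa [PN.leaves] using hEx
    · intro z hz
      simp [Net.nodes] at hz
    · intro w hw
      simp only [Net.leaves, List.mem_singleton] at hw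
      rw [hw]
      exact hvv
    · simp [Net.leaves, PN.leaves, hpv]
    · rw [hang_leaf]
      simpa [Net.top, Net.len] using hd
  | node z l r ihl ihr =>
    intro D x hN hE hlen hIn hpos hnd hlv hG
    obtain ⟨hzY, hM, hGl, hGr⟩ := hG
    have hl1 := net_pos_leaves l
    have hr1 := net_pos_leaves r
    simp only [PN.leaves, List.length_append] at hlen
    set W := Y.card ^ 2 + 1 with hW
    set a := l.leaves.length with ha
    set b := r.leaves.length with hb
    have e1 : W * (2 * (a + b)) = W * (2 * a) + W * (2 * b) := by ring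
    have e2 : W * (2 * a) = W + W * (2 * a - 1) := by
      obtain ⟨a', ha'⟩ : ∃ a', a = a' + 1 := ⟨a - 1, by omega⟩
      have : 2 * a - 1 = 2 * a' + 1 := by omega
      rw [this, ha']
      ring
    have e3 : W * (2 * b) = W + W * (2 * b - 1) := by
      obtain ⟨b', hb'⟩ : ∃ b', b = b' + 1 := ⟨b - 1, by omega⟩
      have : 2 * b - 1 = 2 * b' + 1 := by omega
      rw [this, hb']
      ring
    have e4 : W * (2 * (a + b) - 1) = W + W * (2 * a - 1) + W * (2 * b - 1) := by
      have : 2 * (a + b) - 1 = 1 + (2 * a - 1) + (2 * b - 1) := by omega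
      rw [this]
      ring
    have hzc : z ∈ convexHull ℝ (Y : Set E) := hnd z (by simp [PN.nodes])
    obtain ⟨D1, y, hE1, hEx1, hIn1, hpy, _, hd1⟩ := hsg0 N M p Y D x z hN hE (by omega) hIn hpos
      hzc hM
    have hlen1 := hEx1.2
    obtain ⟨D2, l', hE2, hEx2, hnl, hll, hml, hdl⟩ := ihl D1 y hN hE1 (by omega) hIn1
      (by rw [hpy]; exact hzY) (fun u hu => hnd u (by simp [PN.nodes, hu]))
      (fun u hu => hlv u (by simp [PN.leaves, hu])) (by rw [hpy]; exact hGl)
    have hlen2 := hEx2.2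
    obtain ⟨t12, v12, i12, _, d12⟩ := hext N D1 D2 _ hE1.ok hE2.ok hEx2
    obtain ⟨D3, r', hE3, hEx3, hnr, hlr, hmr, hdr⟩ := ihr D2 y hN hE2 (by omega) (i12 y hIn1)
      (by rw [hpy]; exact hzY) (fun u hu => hnd u (by simp [PN.nodes, hu]))
      (fun u hu => hlv u (by simp [PN.leaves, hu])) (by rw [hpy]; exact hGr)
    obtain ⟨t23, v23, i23, _, d23⟩ := hext N D2 D3 _ hE2.ok hE3.ok hEx3
    obtain ⟨t01, v01, i01, _, d01⟩ := hext N D D1 _ hE.ok hE1.ok hEx1
    have hEx13 := t12 D3 _ hEx3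
    obtain ⟨_, _, _, _, d13⟩ := hext N D1 D3 _ hE1.ok hE3.ok hEx13
    have hEx03 := t01 D3 _ hEx13
    have hc : IsCost (ce p) := (hA1 N).1 p
    refine ⟨D3, Net.node y l' r', hE3, ?_, ?_, ?_, ?_, ?_⟩
    · simp only [PN.leaves, List.length_append]
      rw [← ha, ← hb, e4]
      have : W + W * (2 * a - 1) + W * (2 * b - 1) = W + (W * (2 * a - 1) + W * (2 * b - 1)) := by
        ring
      rw [this]
      exact hEx03
    · intro u hu
      simp only [Net.nodes, List.mem_cons, List.mem_append] at hu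
      rcases hu with rfl | hu | hu
      · exact i23 _ (i12 _ hIn1)
      · exact i23 _ (hnl u hu)
      · exact hnr u hu
    · intro u hu
      simp only [Net.leaves, List.mem_append] at hu
      rcases hu with hu | hu
      · exact v23 u (hll u hu)
      · exact hlr u hu
    · simp [Net.leaves, PN.leaves, hml, hmr]
    · have g1 : dK D3.K (ce p) x y ≤ dK D1.K (ce p) x y := d13 _ x y hc (i01 x hIn) hIn1
      have g2 : dK D3.K (ce p) y l'.top ≤ dK D2.K (ce p) y l'.top :=
        d23 _ y _ hc (i12 y hIn1) (net_top hB4 hA1 D2 hE2.ok l' hnl hll)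
      have g3 := net_len hB4 hA1 hext D2 D3 _ hE2.ok hE3.ok hEx3 (ce p) hc l' hnl hll
      rw [hang_node]
      rw [hpy] at hdl hdr
      have g4 : (Net.node y l' r').top = y := rfl
      have g5 : (Net.node y l' r').len (dK D3.K (ce p)) = dK D3.K (ce p) y l'.top +
        dK D3.K (ce p) y r'.top + l'.len (dK D3.K (ce p)) + r'.len (dK D3.K (ce p)) := rfl
      rw [g4, g5]
      linarith

end R

end Pool.Agent.Lib.MP_9f84a9_co
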