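import Pool.Agent.Lib.MP_9f84a9_co.R.Stm1

/-!
# MP_9f84a9_co, section 1, piece off: a segment whose line misses a point
-/

set_option autoImplicit false

namespace Pool.Agent.Lib.MP_9f84a9_co.R

theorem t_off : S_off := by
  have h1 : ∀ (q z : E) (t : ℝ), ar q ((1 - t) • q + t • z) z = 0 := by
    intro q z t
    simp [ar]
    ring
  have h2 : ∀ (q z : E) (t : ℝ), ar z ((1 - t) • q + t • z) q = 0 := by
    intro q z t
    simp [ar]
    ring
  refine ⟨?_, ?_, ?_⟩
  · intro Y q z _ h t _ _ hy
    exact h _ hy (h1 q z t)
  · intro Y q z hz h t ht0 _ hy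
    by_cases hq : (1 - t) • q + t • z = q
    · apply hz
      have h3 : t • (z - q) = 0 := by
        calc t • (z - q) = ((1 - t) • q + t • z) - q := by
              rw [smul_sub, sub_smul, one_smul]
              abel
          _ = 0 := by rw [hq, sub_self]
      have h4 : z = q := by
        rcases smul_eq_zero.1 h3 with h5 | h5
        · exact absurd h5 ht0.ne'
        · exact sub_eq_zero.1 h5
      rw [hq] at hy
      rw [h4]
      exact hy
    · exact h _ hy hq (h1 q z t)
  · intro Y q x hq h t _ ht1 hy
    by_cases hx : (1 - t) • q + t • x = x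
    · apply hq
      have h3 : (1 - t) • (q - x) = 0 := by
        calc (1 - t) • (q - x) = ((1 - t) • q + t • x) - x := by
              rw [smul_sub, sub_smul 1 t x, one_smul]
              abel
          _ = 0 := by rw [hx, sub_self]
      have h4 : q = x := by
        rcases smul_eq_zero.1 h3 with h5 | h5
        · exact absurd h5 (sub_ne_zero.2 ht1.ne')
        · exact sub_eq_zero.1 h5
      rw [hx] at hy
      rw [h4]
      exact hy
    · exact h _ hy hx (h2 q x t)

end Pool.Agent.Lib.MP_9f84a9_co.R
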