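import Pool.Agent.Lib.MP_9f84a9_co.R.Stm2

set_option autoImplicit false

namespace Pool.Agent.Lib.MP_9f84a9_co

open Finset

namespace R

theorem t_one (hbig : S_big) (hins : S_ins) (hgn : S_gn) (hdev : S_dev) (hcfg : S_cfg) :
    S_one := by
  classical
  intro X M x1 z l r hY hM hH hx1 hlv
  refine le_of_forall_pos_le_add fun ε hε => ?_
  have hleaf : ∀ x ∈ (PN.node z l r).leaves, x ∈ X := by
    intro x hx
    have h1 : x ∈ ((PN.node z l r).leaves : Multiset E) := hx
    rw [hlv] at h1
    exact Finset.mem_of_mem_erase (Finset.mem_def.2 h1)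
  obtain ⟨A, B, C, hin, hfar⟩ := hbig (X ∪ (PN.node z l r).nodes.toFinset)
    (∑ y ∈ X, ∑ y' ∈ X, dist y y')
  have hbd : ∀ y ∈ X, ∀ y' ∈ X, dist y y' ≤ ∑ y ∈ X, ∑ y' ∈ X, dist y y' := by
    intro y hy y' hy'
    calc dist y y' ≤ ∑ y' ∈ X, dist y y' :=
          Finset.single_le_sum (f := fun y' => dist y y') (fun i _ => dist_nonneg) hy'
      _ ≤ ∑ y ∈ X, ∑ y' ∈ X, dist y y' :=
          Finset.single_le_sum (f := fun y => ∑ y' ∈ X, dist y y')
            (fun i _ => Finset.sum_nonneg fun j _ => dist_nonneg) hy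
  have hAY : A ∈ insert A (insert B (insert C X)) := by simp
  have hBY : B ∈ insert A (insert B (insert C X)) := by simp
  have hCY : C ∈ insert A (insert B (insert C X)) := by simp
  have hXY : ∀ x ∈ X, x ∈ insert A (insert B (insert C X)) := fun x hx => by simp [hx]
  obtain ⟨z', l', r', hlv', hnd', hG, har, hh⟩ := hgn (insert A (insert B (insert C X)))
    {u : E | Ins A B C u} z l r x1 ε (hins A B C).2 hε (hXY x1 hx1)
    (fun x hx => hXY x (hleaf x hx))
    (fun u hu => hin u (by
      rw [Finset.mem_union, List.mem_toFinset]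
      exact Or.inr hu))
  obtain ⟨N, p, D, n1, B', hpY, hok, hsp, hn1, hpn1, hnd, hll, hmap, htl⟩ :=
    hdev (insert A (insert B (insert C X))) A B C x1 z' l' r' hAY hBY hCY (hXY x1 hx1)
      (hin x1 (Finset.mem_union_left _ hx1)) hnd'
      (fun x hx => hXY x (hleaf x (by rw [← hlv']; exact hx))) hG har
  have key := hcfg X M N p D n1 B' hY hM hH (by rw [hpn1]; exact hx1) (fun v => by
      have h1 := hpY v
      simp only [Finset.mem_insert] at h1
      rcases h1 with h1 | h1 | h1 | h1
      · right
        intro y hy y' hy'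
        rw [h1]
        exact (hbd y hy y' hy').trans (hfar y' (Finset.mem_union_left _ hy')).1
      · right
        intro y hy y' hy'
        rw [h1]
        exact (hbd y hy y' hy').trans (hfar y' (Finset.mem_union_left _ hy')).2.1
      · right
        intro y hy y' hy'
        rw [h1]
        exact (hbd y hy y' hy').trans (hfar y' (Finset.mem_union_left _ hy')).2.2
      · exact Or.inl h1) hok hsp hn1 hnd hll (by rw [hmap, hlv', hpn1]; convert hlv)
  exact key.trans (htl.trans hh)

end R

end Pool.Agent.Lib.MP_9f84a9_co
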