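import Pool.Agent.Lib.MP_9f84a9_co.R.Stm2

/-!
# MP_9f84a9_co, piece R par: parents in a connected graph
-/

set_option autoImplicit false

namespace Pool.Agent.Lib.MP_9f84a9_co.R

open Finset

theorem t_par : S_par := by
  intro V _ G r hG
  classical
  have h : ∀ v, v ≠ r → ∃ u, G.Adj v u ∧ G.dist u r < G.dist v r := by
    intro v hv
    obtain ⟨w, hw⟩ := hG.exists_walk_length_eq_dist v r
    cases w with
    | nil => exact absurd rfl hv
    | @cons _ u _ h w' =>
      refine ⟨u, h, ?_⟩
      rw [SimpleGraph.Walk.length_cons] at hw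
      have := SimpleGraph.dist_le w'
      omega
  choose f hf using h
  refine ⟨fun v => if hv : v ≠ r then f v hv else r, fun v => G.dist v r, fun v hv => ?_⟩
  simp only [dif_pos hv]
  exact hf v hv

end Pool.Agent.Lib.MP_9f84a9_co.R
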