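import Pool.Agent.Lib.MP_9f84a9_co.R.Stm2

/-!
# MP_9f84a9_co, section 1, piece pln: the edges to the parents are different edges of the graph.
-/

set_option autoImplicit false

namespace Pool.Agent.Lib.MP_9f84a9_co

open Finset

namespace R

open Classical in
/-- [R pln] -/
theorem t_pln : S_pln := by
  intro V _ G r f π ρ h
  have key : ∀ a b : V,
      (if a ≠ r ∧ b = π a then dist (f a) (f b) else 0) +
        (if b ≠ r ∧ a = π b then dist (f a) (f b) else 0) ≤
      if G.Adj a b then dist (f a) (f b) else 0 := by
    intro a b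
    by_cases h1 : a ≠ r ∧ b = π a
    · have h1' := h a h1.1
      rw [← h1.2] at h1'
      have h2 : ¬ (b ≠ r ∧ a = π b) := by
        intro h2
        have h2' := h b h2.1
        rw [← h2.2] at h2'
        have := h1'.2
        have := h2'.2
        omega
      rw [if_pos h1, if_neg h2, if_pos h1'.1, add_zero]
    · rw [if_neg h1, zero_add]
      by_cases h2 : b ≠ r ∧ a = π b
      · have h2' := h b h2.1
        rw [← h2.2] at h2'
        rw [if_pos h2, if_pos h2'.1.symm]
      · rw [if_neg h2]
        split_ifs
        · exact dist_nonneg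
        · exact le_refl _
  have s1 : ∑ a : V, ∑ b : V, (if a ≠ r ∧ b = π a then dist (f a) (f b) else 0) =
      ∑ v ∈ univ.erase r, dist (f v) (f (π v)) := by
    rw [← Finset.sum_erase_add _ _ (Finset.mem_univ r)]
    have h0 : ∑ b : V, (if r ≠ r ∧ b = π r then dist (f r) (f b) else 0) = 0 := by
      apply Finset.sum_eq_zero
      intro b _
      rw [if_neg]
      exact fun h => h.1 rfl
    rw [h0, add_zero]
    apply Finset.sum_congr rfl
    intro v hv
    have hv' : v ≠ r := Finset.ne_of_mem_erase hv
    rw [Finset.sum_eq_single (π v)]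
    · rw [if_pos ⟨hv', rfl⟩]
    · intro b _ hb
      rw [if_neg]
      exact fun h => hb h.2
    · intro h
      exact absurd (Finset.mem_univ _) h
  have s2 : ∑ a : V, ∑ b : V, (if b ≠ r ∧ a = π b then dist (f a) (f b) else 0) =
      ∑ v ∈ univ.erase r, dist (f v) (f (π v)) := by
    rw [Finset.sum_comm, ← s1]
    apply Finset.sum_congr rfl
    intro a _
    apply Finset.sum_congr rfl
    intro b _
    rw [dist_comm]
  calc 2 * ∑ v ∈ univ.erase r, dist (f v) (f (π v))
      = ∑ a : V, ∑ b : V, (if a ≠ r ∧ b = π a then dist (f a) (f b) else 0) +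
        ∑ a : V, ∑ b : V, (if b ≠ r ∧ a = π b then dist (f a) (f b) else 0) := by
        rw [s1, s2]; ring
    _ = ∑ a : V, ∑ b : V, ((if a ≠ r ∧ b = π a then dist (f a) (f b) else 0) +
        (if b ≠ r ∧ a = π b then dist (f a) (f b) else 0)) := by
        rw [← Finset.sum_add_distrib]
        apply Finset.sum_congr rfl
        intro a _
        rw [← Finset.sum_add_distrib]
    _ ≤ _ := by
        apply Finset.sum_le_sum
        intro a _
        apply Finset.sum_le_sum
        intro b _
        exact key a b

end R

end Pool.Agent.Lib.MP_9f84a9_co
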