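import Pool.Agent.Lib.MP_9f84a9_co.R.Stm1

/-!
# MP_9f84a9_co, section 1: piece pt (moving a point off finitely many lines and points)
-/

set_option autoImplicit false

namespace Pool.Agent.Lib.MP_9f84a9_co

open Finset Filter Topology

namespace R

namespace ptAux

/-- the parabola through `z` -/
noncomputable def cv (z : E) (s : ℝ) : E := z + !₂[s, s ^ 2]

theorem cv0 (z : E) (s : ℝ) : cv z s 0 = z 0 + s := by simp [cv]

theorem cv1 (z : E) (s : ℝ) : cv z s 1 = z 1 + s ^ 2 := by simp [cv]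

theorem cont (z : E) : Continuous (cv z) := by
  unfold cv
  refine continuous_const.add ?_
  have h : Continuous (fun s : ℝ => (![s, s ^ 2] : Fin 2 → ℝ)) := by
    refine continuous_pi fun i => ?_
    fin_cases i
    · exact continuous_id
    · exact continuous_pow 2
  exact (PiLp.continuous_toLp 2 (fun _ : Fin 2 => ℝ)).comp h

theorem poly0 (α β γ : ℝ) (h : (Polynomial.C α * Polynomial.X ^ 2 + Polynomial.C β * Polynomial.X
      + Polynomial.C γ : Polynomial ℝ) = 0) : α = 0 ∧ β = 0 := by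
  have h2 := congrArg (fun p => Polynomial.coeff p 2) h
  have h1 := congrArg (fun p => Polynomial.coeff p 1) h
  simp [Polynomial.coeff_C, Polynomial.coeff_X_pow] at h1 h2
  exact ⟨h2, h1⟩

theorem fin_ar (z a b : E) (hab : a ≠ b) : {s : ℝ | ar a b (cv z s) = 0}.Finite := by
  have hp : (Polynomial.C (b 0 - a 0) * Polynomial.X ^ 2 + Polynomial.C (-(b 1 - a 1)) * Polynomial.X
      + Polynomial.C (ar a b z) : Polynomial ℝ) ≠ 0 := by
    intro h
    obtain ⟨h2, h1⟩ := poly0 _ _ _ h
    apply hab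
    ext i
    fin_cases i
    · simp only [Fin.zero_eta]
      linarith
    · simp only [Fin.mk_one]
      linarith
  refine (Polynomial.finite_setOfPred_isRoot hp).subset ?_
  intro s hs
  simp only [Set.mem_ofPred_eq] at hs ⊢
  rw [Polynomial.IsRoot.def]
  simp only [Polynomial.eval_add, Polynomial.eval_mul, Polynomial.eval_C, Polynomial.eval_pow,
    Polynomial.eval_X]
  rw [← hs]
  simp only [ar, cv0, cv1]
  ring

theorem fin_eq (z y : E) : {s : ℝ | cv z s = y}.Finite := by
  apply (Set.finite_singleton (y 0 - z 0)).subset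
  intro s hs
  simp only [Set.mem_ofPred_eq] at hs
  have := cv0 z s
  rw [hs] at this
  simp only [Set.mem_singleton_iff]
  linarith

end ptAux

theorem t_pt : S_pt := by
  intro U z ε F Y hU hz hε hF
  have h0 : ptAux.cv z 0 = z := by
    ext i
    fin_cases i
    · simpa using ptAux.cv0 z 0
    · simpa using ptAux.cv1 z 0
  have hc := (ptAux.cont z).continuousAt (x := 0)
  have e1 : ∀ᶠ s in 𝓝 (0 : ℝ), ptAux.cv z s ∈ U := by
    apply hc.eventually_mem
    rw [h0]
    exact hU.mem_nhds hz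
  have e2 : ∀ᶠ s in 𝓝 (0 : ℝ), ptAux.cv z s ∈ Metric.ball z ε := by
    apply hc.eventually_mem
    rw [h0]
    exact Metric.ball_mem_nhds z hε
  obtain ⟨δ, hδ, hb⟩ := Metric.eventually_nhds_iff.1 (e1.and e2)
  have hfin : ((⋃ q ∈ F, {s : ℝ | ar q.1 q.2 (ptAux.cv z s) = 0}) ∪
      ⋃ y ∈ Y, {s : ℝ | ptAux.cv z s = y}).Finite := by
    apply Set.Finite.union
    · exact F.finite_toSet.biUnion fun q hq => ptAux.fin_ar z q.1 q.2 (hF q hq)
    · exact Y.finite_toSet.biUnion fun y _ => ptAux.fin_eq z y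
  obtain ⟨s, hs, hns⟩ := (Set.Ioo_infinite hδ).exists_notMem_finite hfin
  have hd : dist s 0 < δ := by
    rw [Real.dist_eq, sub_zero, abs_of_pos hs.1]
    exact hs.2
  refine ⟨ptAux.cv z s, (hb hd).1, ?_, ?_, ?_⟩
  · have := (hb hd).2
    rwa [Metric.mem_ball, dist_comm] at this
  · intro hy
    apply hns
    right
    simp only [Set.mem_iUnion]
    exact ⟨_, hy, rfl⟩
  · intro q hq h
    apply hns
    left
    simp only [Set.mem_iUnion]
    exact ⟨q, hq, h⟩

end R

end Pool.Agent.Lib.MP_9f84a9_co
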