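import Pool.Agent.Lib.MP_9f84a9_co.R.Stm2

/-!
# MP_9f84a9_co, piece [GP R redP]: the frozen statement from Theorem Y, assembly of section 1
-/

set_option autoImplicit false

namespace Pool.Agent.Lib.MP_9f84a9_co

open Finset

namespace R

private theorem red_nonneg (S : Finset E) (G : SimpleGraph S) : 0 ≤ WG S G := by
  unfold WG
  refine Finset.sum_nonneg fun a _ => Finset.sum_nonneg fun b _ => ?_
  split_ifs
  · exact dist_nonneg
  · exact le_refl 0

private theorem red_one (X : Finset E) (H : SimpleGraph X) (h : X.card ≤ 1) : WG X H = 0 := by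
  unfold WG
  refine Finset.sum_eq_zero fun a _ => Finset.sum_eq_zero fun b _ => ?_
  have hab : a = b := by
    apply Subtype.ext
    exact Finset.card_le_one.mp h a a.2 b b.2
  subst hab
  simp

private theorem red_top (X : Finset E) : WG X ⊤ = ∑ a ∈ X, ∑ b ∈ X, dist a b := by
  unfold WG
  rw [← Finset.sum_coe_sort X (fun a => ∑ b ∈ X, dist a b)]
  refine Finset.sum_congr rfl fun a _ => ?_
  rw [← Finset.sum_coe_sort X (fun b => dist (a : E) b)]
  refine Finset.sum_congr rfl fun b _ => ?_
  split_ifs with h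
  · rfl
  · have hab : a = b := by
      by_contra h'
      exact h (by simpa using h')
    subst hab
    simp

private theorem red_two (X : Finset E) (x1 x : E) (h1 : x1 ∈ X)
    (h : ({x} : Multiset E) = (X.erase x1).val) : WG X ⊤ = 2 * dist x1 x := by
  have h2 : X.erase x1 = {x} := by
    apply Finset.val_injective
    rw [← h]
    rfl
  have h3 : x ∈ X.erase x1 := by rw [h2]; simp
  have hne : x1 ≠ x := fun h4 => (Finset.mem_erase.mp h3).1 h4.symm
  have h5 : X = {x1, x} := by
    rw [← Finset.insert_erase h1, h2]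
  rw [red_top, h5, Finset.sum_pair hne, Finset.sum_pair hne, Finset.sum_pair hne, dist_self,
    dist_self, dist_comm x x1]
  ring

theorem t_redP : S_redP := by
  intro htree hmst hone hY X S hX hXS G hG
  obtain ⟨H, hH, hmin, hpos⟩ := hmst X hX
  refine ⟨H, hH, ?_⟩
  change Real.sqrt 3 / 2 * WG X H ≤ WG S G
  have hs0 : 0 ≤ Real.sqrt 3 := Real.sqrt_nonneg 3
  have hs : Real.sqrt 3 ≤ 2 := by
    rw [show (2 : ℝ) = Real.sqrt (2 ^ 2) by rw [Real.sqrt_sq (by norm_num)]]
    exact Real.sqrt_le_sqrt (by norm_num)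
  by_cases hc : X.card ≤ 1
  · rw [red_one X H hc, mul_zero]
    exact red_nonneg S G
  · push Not at hc
    obtain ⟨x1, hx1⟩ := hX
    obtain ⟨B, hB1, hB2, hB3⟩ := htree X S x1 G hXS hx1 hc hG
    have hWp := hpos hc
    cases B with
    | leaf x =>
      rw [hang_leaf] at hB3
      have h1 : WG X ⊤ = 2 * dist x1 x := red_two X x1 x hx1 hB1
      have h2 : WG X H ≤ WG X ⊤ := hmin ⊤ (by
        haveI : Nonempty X := ⟨⟨x1, hx1⟩⟩
        exact SimpleGraph.connected_top)
      rw [h1] at h2
      nlinarith
    | node z l r =>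
      have h1 := hone X (WG X H / 2) x1 z l r (hY X.card) (by linarith)
        (fun H' h' => by linarith [hmin H' h']) hx1 hB1
      nlinarith

end R

end Pool.Agent.Lib.MP_9f84a9_co
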