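import Pool.Agent.Lib.MP_9f84a9_co.R.Stm1

/-!
# MP_9f84a9_co, section 1, piece [R root]: the first triangle
-/

set_option autoImplicit false

namespace Pool.Agent.Lib.MP_9f84a9_co

namespace R

open Finset

private theorem root_swap (x y z : E) : ar x y z = - ar x z y := by
  unfold ar
  ring

private theorem root_cyc (x y z : E) : ar x y z = ar z x y := by
  unfold ar
  ring

private theorem root_id (x1 z A B C : E) :
    ar x1 B C * ar x1 z A + ar x1 C A * ar x1 z B + ar x1 A B * ar x1 z C = 0 := by
  unfold ar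
  ring

private theorem root_comb (x1 t u v : E) (α β γ : ℝ) (h : α + β + γ = 1) :
    ar x1 t (α • x1 + β • u + γ • v) = β * ar x1 t u + γ * ar x1 t v := by
  have h0 : ∀ i, (α • x1 + β • u + γ • v) i = α * x1 i + β * u i + γ * v i := fun i => rfl
  have hα : α = 1 - β - γ := by linarith
  unfold ar
  rw [h0, h0, hα]
  ring

private theorem root_self (x y : E) : ar x y x = 0 := by
  unfold ar
  ring

private theorem root_self2 (x y : E) : ar x y y = 0 := by
  unfold ar
  ring

/-- there is a pair of points of `Y` around the direction of `z` -/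
private theorem root_ex (Y : Finset E) (A B C x1 z : E) (hA : A ∈ Y) (hB : B ∈ Y) (hC : C ∈ Y)
    (hI : Ins A B C x1) (hne : ∀ y ∈ Y, y ≠ x1 → ar x1 z y ≠ 0) :
    ∃ u ∈ Y, ∃ v ∈ Y, 0 < ar x1 u z ∧ 0 < ar x1 z v ∧ 0 < ar x1 u v := by
  obtain ⟨h1, h2, h3⟩ := hI
  rw [root_cyc] at h1 h2 h3
  have hAx : A ≠ x1 := by
    intro h
    rw [h, root_cyc, root_self2] at h1
    exact lt_irrefl _ h1
  have hBx : B ≠ x1 := by
    intro h
    rw [h, root_cyc, root_self2] at h2
    exact lt_irrefl _ h2
  have hCx : C ≠ x1 := by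
    intro h
    rw [h, root_cyc, root_self2] at h3
    exact lt_irrefl _ h3
  have hid := root_id x1 z A B C
  have key : ∀ u ∈ Y, ∀ v ∈ Y, ar x1 z u < 0 → 0 < ar x1 z v → 0 < ar x1 u v →
      ∃ u ∈ Y, ∃ v ∈ Y, 0 < ar x1 u z ∧ 0 < ar x1 z v ∧ 0 < ar x1 u v := by
    intro u hu v hv h4 h5 h6
    refine ⟨u, hu, v, hv, ?_, h5, h6⟩
    rw [root_swap]
    linarith
  rcases lt_or_gt_of_ne (hne A hA hAx) with ha | ha
  · rcases lt_or_gt_of_ne (hne B hB hBx) with hb | hb
    · rcases lt_or_gt_of_ne (hne C hC hCx) with hc | hc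
      · exfalso
        have k1 := mul_neg_of_pos_of_neg h2 ha
        have k2 := mul_neg_of_pos_of_neg h3 hb
        have k3 := mul_neg_of_pos_of_neg h1 hc
        linarith
      · exact key B hB C hC hb hc h2
    · exact key A hA B hB ha hb h1
  · rcases lt_or_gt_of_ne (hne C hC hCx) with hc | hc
    · exact key C hC A hA hc ha h3
    · rcases lt_or_gt_of_ne (hne B hB hBx) with hb | hb
      · exact key B hB C hC hb hc h2
      · exfalso
        have k1 := mul_pos h2 ha
        have k2 := mul_pos h3 hb
        have k3 := mul_pos h1 hc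
        linarith

theorem t_root : S_root := by
  classical
  intro Y A B C x1 z hA hB hC _ hI hne
  obtain ⟨u0, hu0, v0, hv0, h0⟩ := root_ex Y A B C x1 z hA hB hC hI hne
  let S : Finset (E × E) :=
    (Y ×ˢ Y).filter fun c => 0 < ar x1 c.1 z ∧ 0 < ar x1 z c.2 ∧ 0 < ar x1 c.1 c.2
  have hS : ∀ c : E × E, c ∈ S ↔ (c.1 ∈ Y ∧ c.2 ∈ Y) ∧
      0 < ar x1 c.1 z ∧ 0 < ar x1 z c.2 ∧ 0 < ar x1 c.1 c.2 := by
    intro c
    show c ∈ (Y ×ˢ Y).filter _ ↔ _
    rw [Finset.mem_filter, Finset.mem_product]
  obtain ⟨⟨u, v⟩, huv, hmin⟩ := Finset.exists_min_image S (fun c => ar x1 c.1 c.2)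
    ⟨(u0, v0), (hS _).2 ⟨⟨hu0, hv0⟩, h0⟩⟩
  obtain ⟨⟨hu, hv⟩, h1, h2, h3⟩ := (hS _).1 huv
  simp only at hu hv h1 h2 h3 hmin
  refine ⟨u, hu, v, hv, h1, h2, h3, ?_⟩
  intro α β γ hα hβ hγ hsum hy
  set y : E := α • x1 + β • u + γ • v with hydef
  have e1 : ar x1 z y = β * ar x1 z u + γ * ar x1 z v := root_comb x1 z u v α β γ hsum
  have e2 : ar x1 u y = γ * ar x1 u v := by
    rw [hydef, root_comb x1 u u v α β γ hsum, root_self2, mul_zero, zero_add]
  have e3 : ar x1 y v = β * ar x1 u v := by
    rw [root_swap, hydef, root_comb x1 v u v α β γ hsum, root_self2, mul_zero, add_zero,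
      root_swap x1 u v]
    ring
  have h1' : ar x1 z u < 0 := by
    rw [root_swap] at h1
    linarith
  by_cases hyx : y = x1
  · left
    rw [hyx, root_self] at e2
    rw [hyx] at e3
    have e3' : ar x1 x1 v = 0 := by
      unfold ar
      ring
    rw [e3'] at e3
    have g0 : γ = 0 := by
      rcases mul_eq_zero.1 e2.symm with h | h
      · exact h
      · exact absurd h h3.ne'
    have b0 : β = 0 := by
      rcases mul_eq_zero.1 e3.symm with h | h
      · exact h
      · exact absurd h h3.ne'
    linarith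
  · right
    rcases lt_or_gt_of_ne (hne y hy hyx) with h | h
    · left
      have hb : 0 < β := by
        rcases hβ.lt_or_eq with hb | hb
        · exact hb
        · exfalso
          rw [← hb, zero_mul, zero_add] at e1
          have := mul_nonneg hγ h2.le
          linarith
      have hin : ((y, v) : E × E) ∈ S := (hS _).2 ⟨⟨hy, hv⟩, by
        show 0 < ar x1 y z
        rw [root_swap]
        linarith, h2, by
        show 0 < ar x1 y v
        rw [e3]
        exact mul_pos hb h3⟩
      have hm := hmin _ hin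
      simp only at hm
      rw [e3] at hm
      have hb1 : 1 ≤ β := by
        by_contra hcon
        push Not at hcon
        have := mul_lt_mul_of_pos_right hcon h3
        linarith
      linarith
    · right
      have hg : 0 < γ := by
        rcases hγ.lt_or_eq with hg | hg
        · exact hg
        · exfalso
          rw [← hg, zero_mul, add_zero] at e1
          have := mul_nonpos_of_nonneg_of_nonpos hβ h1'.le
          linarith
      have hin : ((u, y) : E × E) ∈ S := (hS _).2 ⟨⟨hu, hy⟩, h1, h, by
        show 0 < ar x1 u y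
        rw [e2]
        exact mul_pos hg h3⟩
      have hm := hmin _ hin
      simp only at hm
      rw [e2] at hm
      have hg1 : 1 ≤ γ := by
        by_contra hcon
        push Not at hcon
        have := mul_lt_mul_of_pos_right hcon h3
        linarith
      linarith

end R

end Pool.Agent.Lib.MP_9f84a9_co
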