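import Pool.Agent.Lib.MP_9f84a9_co.R.Stm2

/-!
# MP_9f84a9_co, section 1, piece scl: scaling
-/

set_option autoImplicit false

namespace Pool.Agent.Lib.MP_9f84a9_co

open Finset
open scoped Pointwise

namespace R

namespace scl

theorem path_mul {N : ℕ} {K : Cx N} {c : Pt N → Pt N → ℝ} (s : ℝ) {x y : Pt N} {k : ℕ} {r : ℝ}
    (h : Path K c x y k r) : Path K (fun a b => s * c a b) x y k (s * r) := by
  induction h with
  | nil x hx =>
    rw [mul_zero]
    exact Path.nil x hx
  | cons x y z k r hxy _ ih =>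
    rw [mul_add]
    exact Path.cons x y z k (s * r) hxy ih

theorem dK_mul {N : ℕ} (K : Cx N) (c : Pt N → Pt N → ℝ) (s : ℝ) (hs : 0 < s) (x y : Pt N) :
    dK K (fun a b => s * c a b) x y = s * dK K c x y := by
  have h : {r : ℝ | ∃ k, Path K (fun a b => s * c a b) x y k r} =
      s • {r : ℝ | ∃ k, Path K c x y k r} := by
    ext r
    rw [Set.mem_smul_set]
    constructor
    · rintro ⟨k, hk⟩
      refine ⟨s⁻¹ * r, ⟨k, ?_⟩, ?_⟩
      · have h1 := path_mul s⁻¹ hk
        have h2 : (fun a b => s⁻¹ * (s * c a b)) = c := by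
          funext a b
          rw [← mul_assoc, inv_mul_cancel₀ hs.ne', one_mul]
        rw [h2] at h1
        exact h1
      · rw [smul_eq_mul, ← mul_assoc, mul_inv_cancel₀ hs.ne', one_mul]
    · rintro ⟨r', ⟨k, hk⟩, rfl⟩
      exact ⟨k, path_mul s hk⟩
  unfold dK
  rw [h, Real.sInf_smul_of_nonneg hs.le, smul_eq_mul]

theorem pos_mul {N : ℕ} (p : Fin N → E) (s : ℝ) (x : Pt N) :
    pos (fun v => s • p v) x = s • pos p x := by
  unfold pos
  rw [Finset.smul_sum]
  exact Finset.sum_congr rfl fun v _ => smul_comm _ _ _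

theorem ce_mul {N : ℕ} (p : Fin N → E) (s : ℝ) (hs : 0 < s) :
    (ce fun v => s • p v) = fun x y => s * ce p x y := by
  funext x y
  unfold ce
  rw [pos_mul, pos_mul, dist_smul₀, Real.norm_of_nonneg hs.le]

theorem len_mul {N : ℕ} (d : Pt N → Pt N → ℝ) (s : ℝ) (A : Net N) :
    A.len (fun x y => s * d x y) = s * A.len d := by
  induction A with
  | leaf v => simp [Net.len]
  | node z l r ihl ihr =>
    simp only [Net.len, ihl, ihr]
    ring

theorem ar_mul (s : ℝ) (a b c : E) : ar (s • a) (s • b) (s • c) = s ^ 2 * ar a b c := by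
  simp only [ar, PiLp.smul_apply, smul_eq_mul]
  ring

theorem wpos {N : ℕ} (p : Fin N → E) (s : ℝ) (T : PT N) :
    ∀ a b : Fin N, T.SPos p a b → T.WPos (fun v => s • p v) a b := by
  induction T with
  | nil => intro a b _; trivial
  | node w l r ihl ihr =>
    intro a b h
    refine ⟨?_, ihl a w h.2.1, ihr w b h.2.2⟩
    show 0 ≤ ar (s • p a) (s • p b) (s • p w)
    rw [ar_mul]
    exact mul_nonneg (sq_nonneg s) h.1.le

end scl

theorem t_scl (_hA1 : S_A1) : S_scl := by
  intro N D p M hM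
  have hs : 0 < M⁻¹ := inv_pos.2 hM
  have hd : ∀ x y, dK D.K (ce fun v => M⁻¹ • p v) x y = M⁻¹ * dK D.K (ce p) x y := by
    intro x y
    rw [scl.ce_mul p M⁻¹ hs, scl.dK_mul _ _ _ hs]
  refine ⟨hd, ?_, ?_⟩
  · intro T
    have h : dK D.K (ce fun v => M⁻¹ • p v) = fun x y => M⁻¹ * dK D.K (ce p) x y := by
      funext x y
      exact hd x y
    rw [h]
    unfold Net.tlen
    rw [scl.len_mul, scl.len_mul]
    ring
  · intro h
    exact ⟨scl.wpos p M⁻¹ D.P D.a D.b h.1, scl.wpos p M⁻¹ D.R D.b D.a h.2⟩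

end R

end Pool.Agent.Lib.MP_9f84a9_co
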