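import Pool.Agent.Lib.MP_9f84a9_co.R.Stm1

/-!
# MP_9f84a9_co, section 1, `seg`: following a segment
-/

set_option autoImplicit false

namespace Pool.Agent.Lib.MP_9f84a9_co

open Finset Filter Topology

namespace R

private theorem seg_miss (Y : Finset E) (q z : E) (t : ℝ) (ht0 : 0 < t) (ht1 : t < 1)
    (h : Miss Y q z) : Miss Y ((1 - t) • q + t • z) z := by
  intro t' h0 h1 hmem
  apply h (t + t' * (1 - t)) (by nlinarith) (by nlinarith)
  have : (1 - (t + t' * (1 - t))) • q + (t + t' * (1 - t)) • z =
      (1 - t') • ((1 - t) • q + t • z) + t' • z := by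
    module
  rw [this]
  exact hmem

private theorem seg_dist1 (q z : E) (t : ℝ) (ht0 : 0 < t) :
    dist q ((1 - t) • q + t • z) = t * dist q z := by
  rw [dist_eq_norm, dist_eq_norm]
  have : q - ((1 - t) • q + t • z) = t • (q - z) := by module
  rw [this, norm_smul, Real.norm_of_nonneg ht0.le]

private theorem seg_dist2 (q z : E) (t : ℝ) (ht1 : t < 1) :
    dist ((1 - t) • q + t • z) z = (1 - t) * dist q z := by
  rw [dist_eq_norm, dist_eq_norm]
  have : ((1 - t) • q + t • z) - z = (1 - t) • (q - z) := by module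
  rw [this, norm_smul, Real.norm_of_nonneg (by linarith)]

private theorem seg_pos2 {N : ℕ} (p : Fin N → E) (x' : Pt N) (a b : Fin N) (hab : a ≠ b)
    (hs : ∑ i, x' i = 1) (hsup : Sup x' {a, b}) :
    pos p x' = (1 - x' b) • p a + x' b • p b := by
  have h1 : ∀ i, i ∉ ({a, b} : Finset (Fin N)) → x' i • p i = 0 := by
    intro i hi
    rw [hsup i hi, zero_smul]
  have h2 : pos p x' = ∑ i ∈ ({a, b} : Finset (Fin N)), x' i • p i := by
    unfold pos
    exact (Finset.sum_subset (Finset.subset_univ _) (fun i _ hi => h1 i hi)).symm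
  have h3 : ∑ i, x' i = ∑ i ∈ ({a, b} : Finset (Fin N)), x' i :=
    (Finset.sum_subset (Finset.subset_univ _) (fun i _ hi => hsup i hi)).symm
  rw [Finset.sum_pair hab] at h2 h3
  rw [h3] at hs
  rw [h2, ← hs]
  congr 2
  ring

theorem t_seg (hexit : S_exit) (hnb : S_nb) (hms : S_ms) (hext : S_ext) :
    S_seg := by
  intro N M p Y
  suffices h : ∀ (n : ℕ) (D : Dsc N) (u v w : Fin N) (x : Pt N) (z : E),
      ms Y (pos p x) z = n →
      Nam p Y M → Emb p Y D → D.vl.length + ms Y (pos p x) z < M → {u, v, w} ∈ D.K →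
      0 < ar (p u) (p v) (p w) → z ∈ convexHull ℝ (Y : Set E) → Ent p u v w x z →
      Miss Y (pos p x) z →
      ∃ (D' : Dsc N) (y : Pt N), Emb p Y D' ∧ Ext (ms Y (pos p x) z) D D' ∧ In D'.K y ∧
        pos p y = z ∧ ∃ k, Path D'.K (ce p) x y k (dist (pos p x) z) by
    intro D u v w x z
    exact h _ D u v w x z rfl
  intro n
  induction n using Nat.strong_induction_on with
  | _ n ih =>
    intro D u v w x z hn hNam hEmb hlen hf hs hz hEnt hMiss
    have hInx : In D.K x := ⟨hEnt.nn, hEnt.sum, {u, v, w}, hf, hEnt.sup⟩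
    rcases hexit N p Y u v w x z hNam.mem hs hEnt hMiss with
      ⟨y, hy0, hy1, hy2, hy3⟩ | ⟨a, b, c, t, x', hrot, ht0, ht1, hx0, hx1, hx2, hxa, hxb, hx3, har⟩
    · have hIny : In D.K y := ⟨hy0, hy1, {u, v, w}, hf, hy2⟩
      refine ⟨D, y, hEmb, ⟨fun f hf => hf, Nat.le_add_right _ _⟩, hIny, hy3, 1, ?_⟩
      have hp := Path.cons (c := ce p) x y y 0 0 ⟨hInx, hIny, {u, v, w}, hf, hEnt.sup, hy2⟩
        (Path.nil y hIny)
      have hc : ce p x y + 0 = dist (pos p x) z := by
        unfold ce
        rw [hy3, add_zero]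
      rw [hc] at hp
      exact hp
    · -- the rotation
      have hset : ({a, b, c} : Finset (Fin N)) = {u, v, w} := by
        rcases hrot with ⟨rfl, rfl, rfl⟩ | ⟨rfl, rfl, rfl⟩ | ⟨rfl, rfl, rfl⟩
        · rfl
        · ext i
          simp only [Finset.mem_insert, Finset.mem_singleton]
          tauto
        · ext i
          simp only [Finset.mem_insert, Finset.mem_singleton]
          tauto
      have hs' : 0 < ar (p a) (p b) (p c) := by
        rcases hrot with ⟨rfl, rfl, rfl⟩ | ⟨rfl, rfl, rfl⟩ | ⟨rfl, rfl, rfl⟩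
        · exact hs
        · refine lt_of_lt_of_eq hs ?_
          unfold ar
          ring
        · refine lt_of_lt_of_eq hs ?_
          unfold ar
          ring
      have hf' : {a, b, c} ∈ D.K := by
        rw [hset]
        exact hf
      have hab : a ≠ b := by
        rintro rfl
        unfold ar at hs'
        linarith
      obtain ⟨D₁, w', hEmb₁, hExt₁, hf₁, hs₁⟩ := hnb N M p Y D a b c z hNam hEmb (by omega) hf' hs' hz
        har
      have hw'b : w' ≠ b := by
        rintro rfl
        unfold ar at hs₁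
        linarith
      have hw'a : w' ≠ a := by
        rintro rfl
        unfold ar at hs₁
        linarith
      have hx'w' : x' w' = 0 := hx2 w' (by simp [hw'a, hw'b])
      have hsup1 : Sup x' {b, a, w'} := by
        intro i hi
        apply hx2
        simp only [Finset.mem_insert, Finset.mem_singleton] at hi ⊢
        tauto
      have hsup2 : Sup x' {u, v, w} := by
        rw [← hset]
        intro i hi
        apply hx2
        simp only [Finset.mem_insert, Finset.mem_singleton] at hi ⊢
        tauto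
      have hInx' : In D.K x' := ⟨hx0, hx1, {u, v, w}, hf, hsup2⟩
      have hEnt' : Ent p b a w' x' z := by
        refine ⟨hx0, hx1, hsup1, ?_, ?_, ?_⟩
        · intro _
          have : ar (p b) (p a) z = - ar (p a) (p b) z := by
            unfold ar
            ring
          linarith
        · intro h
          exact absurd h hxb.ne'
        · intro h
          exact absurd h hxa.ne'
      have hMiss' : Miss Y (pos p x') z := by
        rw [hx3]
        exact seg_miss Y _ _ t ht0 ht1 hMiss
      have hxb1 : x' b < 1 := by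
        have h3 : ∑ i, x' i = ∑ i ∈ ({a, b} : Finset (Fin N)), x' i :=
          (Finset.sum_subset (Finset.subset_univ _) (fun i _ hi => hx2 i hi)).symm
        rw [Finset.sum_pair hab, hx1] at h3
        linarith
      have hmslt : ms Y (pos p x') z < ms Y (pos p x) z := by
        rw [hx3]
        apply hms.1 Y (pos p x) z (p a) (p b) t (x' b) ht0 ht1 hxb hxb1 (hNam.mem a) (hNam.mem b)
        · rw [← hx3]
          exact seg_pos2 p x' a b hab hx1 hx2
        · exact har.ne
      have hlen₁ : D₁.vl.length + ms Y (pos p x') z < M := by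
        have := hExt₁.2
        omega
      obtain ⟨D', y, hEmb', hExt', hIny, hy3, k, hpath⟩ := ih (ms Y (pos p x') z) (by omega) D₁ b a w'
        x' z rfl hNam hEmb₁ hlen₁ hf₁ hs₁ hz hEnt' hMiss'
      have hE := (hext N D D₁ 1 hEmb.ok hEmb₁.ok hExt₁).1 D' _ hExt'
      have hE' : Ext (ms Y (pos p x) z) D D' := ⟨hE.1, hE.2.trans (by omega)⟩
      refine ⟨D', y, hEmb', hE', hIny, hy3, k + 1, ?_⟩
      have hstep : Stp D'.K x x' := by
        refine ⟨⟨hEnt.nn, hEnt.sum, {u, v, w}, hE.1 _ hf, hEnt.sup⟩,
          ⟨hx0, hx1, {u, v, w}, hE.1 _ hf, hsup2⟩, {u, v, w}, hE.1 _ hf, hEnt.sup, hsup2⟩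
      have hp := Path.cons (c := ce p) x x' y k _ hstep hpath
      have hc : ce p x x' + dist (pos p x') z = dist (pos p x) z := by
        unfold ce
        rw [hx3, seg_dist1 _ _ t ht0, seg_dist2 _ _ t ht1]
        ring
      rw [hc] at hp
      exact hp

end R

end Pool.Agent.Lib.MP_9f84a9_co
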