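import Pool.Agent.Lib.MP_9f84a9_co.R.Stm1

set_option autoImplicit false

/-!
# MP_9f84a9_co, section 1: piece sg0
-/

namespace Pool.Agent.Lib.MP_9f84a9_co.R

open Finset

private theorem sg0_nonneg {N : ℕ} {K : Cx N} {p : Fin N → E}
    {x y : Pt N} {n : ℕ} {r : ℝ} (hp : Path K (ce p) x y n r) : 0 ≤ r := by
  induction hp with
  | nil x _ => exact le_rfl
  | cons x y z k r _ _ ih => exact add_nonneg dist_nonneg ih

private theorem sg0_fin {N : ℕ} (p : Fin N → E) (Y : Finset E) (D D1 : Dsc N) (x : Pt N) (z : E)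
    (hms : ms Y (pos p x) z ≤ Y.card ^ 2) (hD : D.ok) (hD1 : D1.ok) (hext : S_ext)
    (hE1 : Ext 1 D D1)
    (h : ∃ (D' : Dsc N) (y : Pt N), Emb p Y D' ∧ Ext (ms Y (pos p x) z) D1 D' ∧ In D'.K y ∧
      pos p y = z ∧ ∃ k, Path D'.K (ce p) x y k (dist (pos p x) z)) :
    ∃ (D' : Dsc N) (y : Pt N), Emb p Y D' ∧ Ext (Y.card ^ 2 + 1) D D' ∧ In D'.K y ∧
      pos p y = z ∧ (z ∈ Y → ∃ v ∈ D'.vl, y = vx v) ∧
      dK D'.K (ce p) x y ≤ dist (pos p x) z := by
  obtain ⟨D', y, hE, hX, hy, hyz, k, hk⟩ := h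
  have h1 := (hext N D D1 1 hD hD1 hE1).1 D' _ hX
  refine ⟨D', y, hE, ⟨h1.1, ?_⟩, hy, hyz, ?_, ?_⟩
  · have h2 := h1.2
    omega
  · intro hz
    exact hE.emp y hy (by rw [hyz]; exact hz)
  · unfold dK
    apply csInf_le
    · refine ⟨0, ?_⟩
      rintro r ⟨k', hk'⟩
      exact sg0_nonneg hk'
    · exact ⟨k, hk⟩

private theorem sg0_one (hseg : S_seg) (hnb : S_nb) (hext : S_ext) (hms : S_ms)
    {N M : ℕ} (p : Fin N → E) (Y : Finset E) (D : Dsc N) (x : Pt N) (z : E)
    (hN : Nam p Y M) (hE : Emb p Y D) (hlen : D.vl.length + (Y.card ^ 2 + 1) < M)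
    (hx0 : ∀ i, 0 ≤ x i) (hx1 : ∑ i, x i = 1) (hxY : pos p x ∉ Y)
    (hz : z ∈ convexHull ℝ (Y : Set E)) (hm : Miss Y (pos p x) z) (u v w : Fin N)
    (hf : {u, v, w} ∈ D.K) (har : 0 < ar (p u) (p v) (p w)) (hs : Sup x {u, v, w})
    (hxw : x w = 0) (harz : ar (p u) (p v) z < 0) :
    ∃ (D' : Dsc N) (y : Pt N), Emb p Y D' ∧ Ext (Y.card ^ 2 + 1) D D' ∧ In D'.K y ∧
      pos p y = z ∧ (z ∈ Y → ∃ v ∈ D'.vl, y = vx v) ∧
      dK D'.K (ce p) x y ≤ dist (pos p x) z := by
  classical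
  have hmsY := hms.2 Y (pos p x) z
  have huv : u ≠ v := by
    rintro rfl
    rw [show ar (p u) (p u) (p w) = 0 by simp only [ar]; ring] at har
    exact lt_irrefl _ har
  have hvert : ∀ a b : Fin N, ({a, b} : Finset (Fin N)) = {u, v} → x a = 0 → False := by
    intro a b hab ha
    apply hxY
    have h1 : x = vx b := by
      have h2 : ∀ i, i ≠ b → x i = 0 := by
        intro i hi
        by_cases hia : i = a
        · rw [hia, ha]
        · by_cases hiw : i = w
          · rw [hiw, hxw]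
          · apply hs
            have h3 : i ∉ ({u, v} : Finset (Fin N)) := by
              rw [← hab]
              simp [hia, hi]
            simp only [mem_insert, mem_singleton, not_or] at h3 ⊢
            exact ⟨h3.1, h3.2, hiw⟩
      have h3 : x b = 1 := by
        rw [← hx1, sum_eq_single b (fun i _ hi => h2 i hi) (fun h => absurd (mem_univ b) h)]
      funext i
      by_cases hi : i = b
      · rw [hi, h3, vx, Pi.single_eq_same]
      · rw [h2 i hi, vx, Pi.single_eq_of_ne hi]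
    have h4 : pos p x = p b := by
      rw [h1]
      unfold pos vx
      rw [sum_eq_single b]
      · simp
      · intro i _ hi
        rw [Pi.single_eq_of_ne hi, zero_smul]
      · intro h
        exact absurd (mem_univ b) h
    rw [h4]
    exact hN.mem b
  have hxu : x u ≠ 0 := fun h => hvert u v rfl h
  have hxv : x v ≠ 0 := fun h => hvert v u (pair_comm v u) h
  obtain ⟨D1, w', hE1, hX1, hK1, har1⟩ := hnb N M p Y D u v w z hN hE (by omega) hf har hz harz
  apply sg0_fin p Y D D1 x z hmsY hE.ok hE1.ok hext hX1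
  apply hseg N M p Y D1 v u w' x z hN hE1 _ hK1 har1 hz _ hm
  · have := hX1.2
    omega
  · refine ⟨hx0, hx1, ?_, ?_, fun h => absurd h hxv, fun h => absurd h hxu⟩
    · intro i hi
      simp only [mem_insert, mem_singleton, not_or] at hi
      by_cases hiw : i = w
      · rw [hiw, hxw]
      · apply hs
        simp only [mem_insert, mem_singleton, not_or]
        exact ⟨hi.2.1, hi.1, hiw⟩
    · intro _
      have h1 : ar (p v) (p u) z = - ar (p u) (p v) z := by
        simp only [ar]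
        ring
      rw [h1]
      linarith only [harz]

theorem t_sg0 (hseg : S_seg) (hnb : S_nb) (hext : S_ext) (hms : S_ms) (hB1 : S_B1)
    (hB2 : S_B2) (hB4 : S_B4) : S_sg0 := by
  classical
  intro N M p Y D x z hN hE hlen hx hxY hz hm
  have hmsY := hms.2 Y (pos p x) z
  obtain ⟨hx0, hx1, f, hf, hs⟩ := hx
  have hcard : f.card = 3 := by
    rcases (hB4 N D hE.ok).2.2.1 f hf with h | h
    · exact h
    · exact absurd ⟨h.1, h.2.1⟩ hE.tri
  obtain ⟨a, b, hab, ha, hb⟩ : ∃ a b : Fin N, a ≠ b ∧ a ∈ f ∧ b ∈ f := by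
    obtain ⟨a, ha, b, hb, hab⟩ := one_lt_card.1 (by omega : 1 < f.card)
    exact ⟨a, b, hab, ha, hb⟩
  obtain ⟨D1, w, l, r, hEq, hP, hfD, -⟩ := (hB2 N D hE.ok f hf a ha b hb hab).2 hE.tri
  obtain ⟨-, -, -, -, hall⟩ := hB1 N D D1 hEq
  have hsp1 : D1.SPos p := (hall p).2.1.1 hE.spos
  obtain ⟨u, v, P1, R1⟩ := D1
  simp only at hP hfD
  subst hP
  have har : 0 < ar (p u) (p v) (p w) := hsp1.1.1
  have har2 : 0 < ar (p v) (p w) (p u) := by
    have : ar (p v) (p w) (p u) = ar (p u) (p v) (p w) := by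
      simp only [ar]
      ring
    rw [this]
    exact har
  have har3 : 0 < ar (p w) (p u) (p v) := by
    have : ar (p w) (p u) (p v) = ar (p u) (p v) (p w) := by
      simp only [ar]
      ring
    rw [this]
    exact har
  subst hfD
  by_cases hEnt : Ent p u v w x z
  · have h1 := hseg N M p Y D u v w x z hN hE (by omega) hf har hz hEnt hm
    exact sg0_fin p Y D D x z hmsY hE.ok hE.ok hext ⟨fun f hf => hf, Nat.le_succ _⟩ h1
  · have h1 : (x w = 0 ∧ ar (p u) (p v) z < 0) ∨ (x u = 0 ∧ ar (p v) (p w) z < 0) ∨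
        (x v = 0 ∧ ar (p w) (p u) z < 0) := by
      by_contra hcon
      push Not at hcon
      exact hEnt ⟨hx0, hx1, hs, hcon.1, hcon.2.1, hcon.2.2⟩
    have e1 : ({v, w, u} : Finset (Fin N)) = {u, v, w} := by
      ext i
      simp only [mem_insert, mem_singleton]
      tauto
    have e2 : ({w, u, v} : Finset (Fin N)) = {u, v, w} := by
      ext i
      simp only [mem_insert, mem_singleton]
      tauto
    rcases h1 with ⟨h2, h3⟩ | ⟨h2, h3⟩ | ⟨h2, h3⟩
    · exact sg0_one hseg hnb hext hms p Y D x z hN hE hlen hx0 hx1 hxY hz hm u v w hf har hs h2 h3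
    · exact sg0_one hseg hnb hext hms p Y D x z hN hE hlen hx0 hx1 hxY hz hm v w u
        (by rw [e1]; exact hf) har2 (by rw [e1]; exact hs) h2 h3
    · exact sg0_one hseg hnb hext hms p Y D x z hN hE hlen hx0 hx1 hxY hz hm w u v
        (by rw [e2]; exact hf) har3 (by rw [e2]; exact hs) h2 h3

end Pool.Agent.Lib.MP_9f84a9_co.R
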