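import Pool.Agent.Lib.MP_9f84a9_co.R.Stm1

/-!
# MP_9f84a9_co, piece R side
-/

set_option autoImplicit false

namespace Pool.Agent.Lib.MP_9f84a9_co.R

open Finset

theorem t_side : S_side := by
  intro Y a b z hz hpos
  by_contra hcon
  push Not at hcon
  have hconv : Convex ℝ {x : E | ar a b x ≤ 0} := by
    intro x hx y hy s t hs ht hst
    have hx' : ar a b x ≤ 0 := hx
    have hy' : ar a b y ≤ 0 := hy
    have e : ar a b (s • x + t • y) = s * ar a b x + t * ar a b y := by
      have ht' : t = 1 - s := by linarith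
      subst ht'
      simp only [ar, PiLp.add_apply, PiLp.smul_apply, smul_eq_mul]
      ring
    show ar a b (s • x + t • y) ≤ 0
    rw [e]
    nlinarith [mul_nonneg hs (neg_nonneg.mpr hx'), mul_nonneg ht (neg_nonneg.mpr hy')]
  have h := convexHull_min (s := (Y : Set E)) (t := {x : E | ar a b x ≤ 0})
    (fun y hy => hcon y (by exact_mod_cast hy)) hconv hz
  have h' : ar a b z ≤ 0 := h
  linarith

end Pool.Agent.Lib.MP_9f84a9_co.R
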