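import Pool.Agent.Lib.MP_9f84a9_co.R.Stm2

/-!
# MP_9f84a9_co, section 1, piece tree: a connected graph contains a planar network.
-/

set_option autoImplicit false

namespace Pool.Agent.Lib.MP_9f84a9_co

open Finset

namespace R

open Classical in
/-- [R tree] -/
theorem t_tree (hpar : S_par) (hpln : S_pln) (hcomb : S_comb) (hbag : S_bag) : S_tree := by
  intro X S x1 G hXS hx1 hcard hG
  obtain ⟨π, ρ, hπ⟩ := hpar S G ⟨x1, hXS hx1⟩ hG
  let f : S → E := fun v => (v : E)
  let β : S → List PN := fun v => if (v : E) ∈ X.erase x1 then [PN.leaf (v : E)] else []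
  obtain ⟨L, hL1, hL2, hL3⟩ := hbag S f ⟨x1, hXS hx1⟩ π ρ univ β (Finset.mem_univ _)
    (fun v _ hv => ⟨Finset.mem_univ _, (hπ v hv).2⟩)
  have hleaves : ((L.flatMap PN.leaves : List E) : Multiset E) = (X.erase x1).val := by
    rw [hL1]
    have e1 : ∀ v : S, (((β v).flatMap PN.leaves : List E) : Multiset E) =
        (fun y : E => if y ∈ X.erase x1 then ({y} : Multiset E) else 0) (v : E) := by
      intro v
      by_cases hv : (v : E) ∈ X.erase x1
      · simp only [β, if_pos hv]
        simp [PN.leaves]
      · simp only [β, if_neg hv]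
        simp
    rw [Finset.sum_congr rfl (fun v _ => e1 v)]
    rw [Finset.sum_coe_sort S (fun y : E => if y ∈ X.erase x1 then ({y} : Multiset E) else 0)]
    rw [← Finset.sum_filter]
    have e2 : S.filter (fun y => y ∈ X.erase x1) = X.erase x1 := by
      ext y
      rw [Finset.mem_filter]
      exact ⟨fun h => h.2, fun h => ⟨hXS (Finset.mem_of_mem_erase h), h⟩⟩
    rw [e2]
    exact Finset.sum_multiset_singleton _
  have hLne : L ≠ [] := by
    rintro rfl
    have h0 : (X.erase x1).card = 0 := by
      rw [Finset.card_def, ← hleaves]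
      simp
    have h1 := Finset.card_erase_of_mem hx1
    omega
  obtain ⟨B, hB1, hB2, hB3⟩ := hcomb x1 L hLne
  refine ⟨B, ?_, ?_, ?_⟩
  · rw [hB1]; exact hleaves
  · intro z hz
    rcases hB2 z hz with rfl | ⟨C, hC, hzC⟩
    · exact hXS hx1
    · rcases hL2 C hC z hzC with ⟨v, rfl⟩ | ⟨v, _, C', hC', hz'⟩
      · exact v.2
      · exfalso
        by_cases hv : (v : E) ∈ X.erase x1
        · simp only [β, if_pos hv, List.mem_singleton] at hC'
          subst hC'
          simp [PN.nodes] at hz'
        · simp only [β, if_neg hv] at hC'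
          simp at hC'
  · have h1 := hB3 x1
    rw [dist_self, zero_add] at h1
    have h2 : ∑ v ∈ (univ : Finset S), hangs (f v) (β v) = 0 := by
      apply Finset.sum_eq_zero
      intro v _
      by_cases hv : (v : E) ∈ X.erase x1
      · simp only [β, if_pos hv, f, hangs, List.map_cons, List.map_nil, List.sum_cons,
          List.sum_nil, hang_leaf, dist_self, add_zero]
      · simp only [β, if_neg hv, hangs, List.map_nil, List.sum_nil]
    rw [h2, zero_add] at hL3
    have h3 := hpln S G ⟨x1, hXS hx1⟩ f π ρ hπ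
    have h4 : WG S G = ∑ a : S, ∑ b : S, if G.Adj a b then dist (f a) (f b) else 0 := rfl
    have h5 : hangs (f ⟨x1, hXS hx1⟩) L = hangs x1 L := rfl
    rw [h5] at hL3
    rw [h4]
    linarith

end R

end Pool.Agent.Lib.MP_9f84a9_co
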