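import Pool.Agent.Lib.MP_9f84a9_co.R.Stm1

/-!
# MP_9f84a9_co, section 1: a big triangle around a finite set.
-/

set_option autoImplicit false

namespace Pool.Agent.Lib.MP_9f84a9_co.R

open Finset

private theorem big_dist (x y : E) (i : Fin 2) (r : ℝ) (h : r ≤ |x i - y i|) : r ≤ dist x y := by
  have h1 : ‖(x - y) i‖ ≤ ‖x - y‖ := PiLp.norm_apply_le _ _
  rw [dist_eq_norm]
  rw [PiLp.sub_apply, Real.norm_eq_abs] at h1
  linarith

theorem t_big : S_big := by
  intro S r
  obtain ⟨R, hR1, hRr, hR⟩ : ∃ R : ℝ, 1 ≤ R ∧ r ≤ R ∧ ∀ s ∈ S, |s 0| ≤ R ∧ |s 1| ≤ R := by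
    refine ⟨1 + |r| + ∑ s ∈ S, (|s 0| + |s 1|), ?_, ?_, ?_⟩
    · have h1 := abs_nonneg r
      have h2 : 0 ≤ ∑ s ∈ S, (|s 0| + |s 1|) := sum_nonneg fun s _ => by positivity
      linarith
    · have h1 := le_abs_self r
      have h2 : 0 ≤ ∑ s ∈ S, (|s 0| + |s 1|) := sum_nonneg fun s _ => by positivity
      linarith
    · intro s hs
      have h1 := abs_nonneg r
      have h2 : |s 0| + |s 1| ≤ ∑ s ∈ S, (|s 0| + |s 1|) :=
        single_le_sum (f := fun s : E => |s 0| + |s 1|) (fun s _ => by positivity) hs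
      have h3 := abs_nonneg (s 0)
      have h4 := abs_nonneg (s 1)
      constructor <;> linarith
  refine ⟨!₂[-10 * R, -5 * R], !₂[10 * R, -5 * R], !₂[0, 10 * R], ?_, ?_⟩
  · intro s hs
    obtain ⟨h0, h1⟩ := hR s hs
    rw [abs_le] at h0 h1
    refine ⟨?_, ?_, ?_⟩
    · unfold ar
      simp
      nlinarith
    · unfold ar
      simp
      nlinarith
    · unfold ar
      simp
      nlinarith
  · intro s hs
    obtain ⟨h0, h1⟩ := hR s hs
    rw [abs_le] at h0 h1
    refine ⟨?_, ?_, ?_⟩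
    · apply big_dist _ _ 1
      apply le_abs.mpr
      right
      simp
      linarith
    · apply big_dist _ _ 1
      apply le_abs.mpr
      right
      simp
      linarith
    · apply big_dist _ _ 1
      apply le_abs.mpr
      left
      simp
      linarith

end Pool.Agent.Lib.MP_9f84a9_co.R
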