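import Pool.Agent.Lib.MP_9f84a9_co.R.Stm2

/-!
# MP_9f84a9_co, section 1: the one-piece configuration.
-/

set_option autoImplicit false

namespace Pool.Agent.Lib.MP_9f84a9_co.R

open Finset

theorem t_cfg (hgsum : S_gsum) (hscl : S_scl) (hlow : S_low) (hA1 : S_A1) (hB4 : S_B4) : S_cfg := by
  classical
  intro X M N p D n1 B' hY hM hmst hn1 hfar hok hsp hn1D hnod hlv hleaves
  obtain ⟨sc1, sc2, sc3⟩ := hscl N D p M hM
  obtain ⟨e, he⟩ : ∃ e : X → ℕ, Function.Injective e :=
    ⟨fun x => (X.equivFin x : ℕ), fun x y h => X.equivFin.injective (Fin.ext h)⟩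
  obtain ⟨Cl, hCl⟩ : ∃ Cl : Finset ℕ, Cl = Finset.univ.image e := ⟨_, rfl⟩
  have hCc : Cl.card = X.card := by
    rw [hCl, Finset.card_image_of_injective _ he, Finset.card_univ, Fintype.card_coe]
  have heC : ∀ x, e x ∈ Cl := by
    intro x
    rw [hCl]
    exact Finset.mem_image_of_mem _ (Finset.mem_univ _)
  obtain ⟨lab, hlab1, hlab2⟩ : ∃ lab : Fin N → ℕ, (∀ v, ∀ h : p v ∈ X, lab v = e ⟨p v, h⟩) ∧
      (∀ v, p v ∉ X → lab v = e ⟨p n1, hn1⟩) := by
    refine ⟨fun v => if h : p v ∈ X then e ⟨p v, h⟩ else e ⟨p n1, hn1⟩, ?_, ?_⟩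
    · intro v h
      simp only [h, dif_pos]
    · intro v h
      simp only [h, dif_neg, not_false_eq_true]
  have hposv : ∀ v : Fin N, pos p (vx v) = p v := (hA1 N).2.2.2.2.2.1 p
  have hInv : ∀ v ∈ D.vl, In D.K (vx v) := by
    intro v hv
    obtain ⟨f, hf, hvf⟩ := (hB4 N D hok).2.1 v hv
    exact ((hA1 N).2.2.2.2.1 D.K f v hf hvf).1
  obtain ⟨q, hq⟩ : ∃ q : Piece N, q = ⟨D, fun v => M⁻¹ • p v, lab, (Net.leaf n1, B')⟩ := ⟨_, rfl⟩
  have hqlv : q.lv = n1 :: B'.leaves := by rw [hq]; rfl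
  have hqnd : q.nd = B'.nodes := by rw [hq]; rfl
  have hqlab : q.lab = lab := by rw [hq]
  have hqD : q.D = D := by rw [hq]
  have hqd : ∀ x y, q.d x y = M⁻¹ * dK D.K (ce p) x y := by
    intro x y
    rw [← sc1 x y, hq]
    rfl
  have hcov : ∀ a ∈ Cl, a ∈ q.lv.map q.lab := by
    intro a ha
    rw [hCl, Finset.mem_image] at ha
    obtain ⟨⟨x, hx⟩, -, rfl⟩ := ha
    rw [hqlv, hqlab, List.mem_map]
    by_cases hx1 : x = p n1
    · refine ⟨n1, by simp, ?_⟩
      subst hx1
      exact hlab1 n1 hx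
    · have h1 : x ∈ ((B'.leaves.map p : List E) : Multiset E) := by
        rw [hleaves, Finset.mem_val, Finset.mem_erase]
        exact ⟨hx1, hx⟩
      rw [Multiset.mem_coe, List.mem_map] at h1
      obtain ⟨v, hv, hvx⟩ := h1
      subst hvx
      exact ⟨v, List.mem_cons_of_mem _ hv, hlab1 v hx⟩
  have hlen : B'.leaves.length + 1 = X.card := by
    have h1 := congrArg Multiset.card hleaves
    rw [Multiset.coe_card, List.length_map, Finset.card_val, Finset.card_erase_of_mem hn1] at h1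
    have h2 : 0 < X.card := Finset.card_pos.mpr ⟨_, hn1⟩
    omega
  have hlow' : ∀ v ∈ D.vl, ∀ w ∈ D.vl, M⁻¹ * dist (p v) (p w) ≤ q.d (vx v) (vx w) := by
    intro v hv w hw
    rw [hqd]
    have h1 := hlow N D p hok (vx v) (vx w) (hInv v hv) (hInv w hw)
    rw [hposv, hposv] at h1
    exact mul_le_mul_of_nonneg_left h1 (inv_pos.mpr hM).le
  obtain ⟨P, hP⟩ : ∃ P : ℝ, ∀ v w : Fin N, dist (q.p v) (q.p w) ≤ P := by
    refine ⟨∑ v, ∑ w, dist (q.p v) (q.p w), ?_⟩
    intro v w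
    have h1 : dist (q.p v) (q.p w) ≤ ∑ w, dist (q.p v) (q.p w) :=
      Finset.single_le_sum (f := fun w => dist (q.p v) (q.p w)) (fun _ _ => dist_nonneg)
        (Finset.mem_univ w)
    have h2 : ∑ w, dist (q.p v) (q.p w) ≤ ∑ v, ∑ w, dist (q.p v) (q.p w) :=
      Finset.single_le_sum (f := fun v => ∑ w, dist (q.p v) (q.p w))
        (fun _ _ => Finset.sum_nonneg fun _ _ => dist_nonneg) (Finset.mem_univ v)
    exact h1.trans h2
  have hInD : InD Cl P [q] := by
    refine ⟨?_, ?_, ?_, ?_⟩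
    · intro q' hq'
      rw [List.mem_singleton] at hq'
      subst hq'
      refine ⟨?_, ?_, ?_, ?_, ?_, ?_⟩
      · rw [hqD]; exact hok
      · rw [hq]; exact sc3 hsp
      · intro v
        rw [hqlab]
        by_cases h : p v ∈ X
        · rw [hlab1 v h]; exact heC _
        · rw [hlab2 v h]; exact heC _
      · intro z hz
        rw [hqnd] at hz
        rw [hqD]
        exact hnod z hz
      · intro v hv
        rw [hqlv, List.mem_cons] at hv
        rw [hqD]
        rcases hv with rfl | hv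
        · exact hn1D
        · exact hlv v hv
      · intro v _ w _
        exact hP v w
    · intro a ha b hb
      exact Relation.ReflTransGen.single ⟨q, by simp, hcov a ha, hcov b hb⟩
    · simp only [List.map_cons, List.map_nil, List.sum_cons, List.sum_nil, add_zero]
      rw [hqlv, hCc, List.length_cons]
      omega
    · intro l hl hJ
      apply hgsum X e Cl M l ⟨_, hn1⟩ he heC hM hJ hmst
      intro t ht
      obtain ⟨q', hq', v, hv, w, hw, h1, h2, h3⟩ := hl t ht
      rw [List.mem_singleton] at hq'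
      rw [hq'] at hv hw h1 h2 h3
      rw [hqD] at hv hw
      rw [hqlab] at h1 h2
      have h4 : M⁻¹ * dist (p v) (p w) ≤ t.2.2 := (hlow' v hv w hw).trans h3
      have h5 : dist (p v) (p w) ≤ M * t.2.2 := by
        rw [inv_mul_le_iff₀ hM] at h4
        exact h4
      have h0 : 0 ≤ t.2.2 := le_trans (by positivity) h4
      refine ⟨h0, ?_⟩
      by_cases hv' : p v ∈ X
      · by_cases hw' : p w ∈ X
        · exact ⟨⟨p v, hv'⟩, ⟨p w, hw'⟩, by rw [← h1, hlab1 v hv'], by rw [← h2, hlab1 w hw'], h5⟩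
        · refine ⟨⟨p v, hv'⟩, ⟨p n1, hn1⟩, by rw [← h1, hlab1 v hv'], by rw [← h2, hlab2 w hw'], ?_⟩
          have h6 := (hfar w).resolve_left hw' (p n1) hn1 (p v) hv'
          rw [dist_comm (p n1), dist_comm (p w)] at h6
          exact h6.trans h5
      · by_cases hw' : p w ∈ X
        · refine ⟨⟨p n1, hn1⟩, ⟨p w, hw'⟩, by rw [← h1, hlab2 v hv'], by rw [← h2, hlab1 w hw'], ?_⟩
          exact ((hfar v).resolve_left hv' (p n1) hn1 (p w) hw').trans h5
        · refine ⟨⟨p n1, hn1⟩, ⟨p n1, hn1⟩, by rw [← h1, hlab2 v hv'],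
            by rw [← h2, hlab2 w hw'], ?_⟩
          rw [dist_self]
          exact mul_nonneg hM.le h0
  have hfin := hY N Cl P [q] hCc hInD
  have hL : Lc [q] = M⁻¹ * Net.tlen (dK D.K (ce p)) (Net.leaf n1, B') := by
    rw [← sc2]
    unfold Lc
    simp only [List.map_cons, List.map_nil, List.sum_cons, List.sum_nil, add_zero]
    rw [hq]
    rfl
  rw [hL] at hfin
  calc Real.sqrt 3 / 2 * M ≤ (M⁻¹ * Net.tlen (dK D.K (ce p)) (Net.leaf n1, B')) * M :=
        mul_le_mul_of_nonneg_right hfin hM.le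
    _ = Net.tlen (dK D.K (ce p)) (Net.leaf n1, B') := by
        field_simp

end Pool.Agent.Lib.MP_9f84a9_co.R
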