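import Pool.Agent.Lib.MP_9f84a9_co.R.Stm1

/-!
# MP_9f84a9_co, section 1, piece nam: names
-/

set_option autoImplicit false

namespace Pool.Agent.Lib.MP_9f84a9_co

open Finset

namespace R

theorem t_nam : S_nam := by
  classical
  intro Y M
  let e : Fin (M * Y.card) ≃ Fin M × Y :=
    (Fintype.equivFinOfCardEq (by simp [Fintype.card_prod])).symm
  refine ⟨M * Y.card, fun v => ((e v).2 : E), ⟨fun v => (e v).2.2, ?_⟩⟩
  intro y hy
  have hinj : Function.Injective (fun i : Fin M =>
      (⟨e.symm (i, ⟨y, hy⟩), by simp⟩ :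
        {v : Fin (M * Y.card) // ((e v).2 : E) = y})) := by
    intro i j h
    have h1 := congrArg Subtype.val h
    have h2 := e.symm.injective h1
    exact (Prod.mk.inj h2).1
  have := Nat.card_le_card_of_injective _ hinj
  simpa using this

end R

end Pool.Agent.Lib.MP_9f84a9_co
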